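import Pool.Agent.Helper179.KSDefs

/-! Definitions for MP_0c7e55_an. -/

set_option autoImplicit false

open MeasureTheory Filter Topology
open Pool.Agent.Helper179.KS

namespace Pool.Agent.H98R3.SN

/-- the one-sided left shift on `Λ^ℕ` -/
def shift {Λ : Type*} (x : ℕ → Λ) : ℕ → Λ := fun n => x (n + 1)

/-- the cylinder of the sequences starting with the finite block `B` -/
def cylinder {Λ : Type*} (B : List Λ) : Set (ℕ → Λ) :=
  {x | ∀ (i : ℕ) (h : i < B.length), x i = B[i]}

open Classical in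
/-- the number of occurrences of the block `B` in the finite word `x_0 x_1 ... x_{N-1}` -/
noncomputable def occ {Λ : Type*} (B : List Λ) (x : ℕ → Λ) (N : ℕ) : ℕ :=
  ((Finset.range (N + 1 - B.length)).filter (fun n => shift^[n] x ∈ cylinder B)).card

/-- `x` is generic for `μ` (`μ`-normal): every finite block occurs in `x` with the frequency
prescribed by `μ` -/
def IsGeneric {Λ : Type*} [MeasurableSpace Λ] (μ : Measure (ℕ → Λ)) (x : ℕ → Λ) : Prop :=
  ∀ B : List Λ, Tendsto (fun N : ℕ => (occ B x N : ℝ) / N) atTop (𝓝 (μ.real (cylinder B)))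

open Classical in
/-- `z` is simply `μ`-normal: every symbol has the frequency prescribed by `μ` -/
def SimplyNormal {Λ : Type*} [MeasurableSpace Λ] (μ : Measure (ℕ → Λ)) (z : ℕ → Λ) : Prop :=
  ∀ a : Λ, Tendsto (fun N : ℕ => (((Finset.range N).filter (fun n => z n = a)).card : ℝ) / N)
    atTop (𝓝 (μ.real {x | x 0 = a}))

/-- the restriction `x|_S = (x_{s_1}, x_{s_2}, ...)` of `x` to the infinite set
`S = {s_1 < s_2 < ...}` -/
noncomputable def restrictTo {Λ : Type*} (x : ℕ → Λ) (S : Set ℕ) : ℕ → Λ :=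
  fun k => x (Nat.nth (fun n => n ∈ S) k)

/-- `S` preserves simple `μ`-normality -/
def PreservesSimpleNormality {Λ : Type*} [MeasurableSpace Λ] (μ : Measure (ℕ → Λ))
    (S : Set ℕ) : Prop :=
  ∀ x : ℕ → Λ, IsGeneric μ x → SimplyNormal μ (restrictTo x S)

open Classical in
/-- the indicator sequence of `S`, a point of `{0,1}^ℕ` -/
noncomputable def indicatorSeq (S : Set ℕ) : ℕ → Bool := fun n => decide (n ∈ S)

/-- `ν` is derived from `S`: it is a weak-star limit point of the empirical measures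
`(1/N) ∑_{n<N} δ_{σ^n 1_S}` -/
def IsDerived (S : Set ℕ) (ν : Measure (ℕ → Bool)) : Prop :=
  ∃ N : ℕ → ℕ, StrictMono N ∧ ∀ f : (ℕ → Bool) → ℝ, Continuous f →
    Tendsto (fun j : ℕ => (∑ n ∈ Finset.range (N j), f (shift^[n] (indicatorSeq S))) / (N j : ℝ))
      atTop (𝓝 (∫ y, f y ∂ν))

/-- `S` is deterministic: every (probability) measure derived from `S` has Kolmogorov-Sinai
entropy zero -/
def Deterministic (S : Set ℕ) : Prop :=
  ∀ ν : Measure (ℕ → Bool), IsProbabilityMeasure ν → IsDerived S ν → ksEntropy ν shift = 0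

end Pool.Agent.H98R3.SN
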