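import Pool.Agent.Helper179.KSCover

/-! Basic entropy facts (finite-valued random variables). -/

set_option autoImplicit false

open MeasureTheory Filter Topology
open Pool.Agent.Helper179.KS

namespace Pool.Agent.H98R3.SN

/-! ### the function `phi s t = s t / (s + t)` -/

/-- `s t / (s + t)` -/
noncomputable def phi (s t : ℝ) : ℝ := s * t / (s + t)

lemma phi_nonneg {s t : ℝ} (hs : 0 ≤ s) (ht : 0 ≤ t) : 0 ≤ phi s t := by
  unfold phi; positivity

lemma phi_le {s t : ℝ} (hs : 0 ≤ s) (ht : 0 ≤ t) (θ : ℝ) :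
    phi s t ≤ (1 - θ) ^ 2 * s + θ ^ 2 * t := by
  unfold phi
  rcases (add_nonneg hs ht).eq_or_lt with h | h
  · rw [← h]; simp; positivity
  · rw [div_le_iff₀ h]
    nlinarith [sq_nonneg ((s + t) * θ - s)]

lemma phi_eq {s t : ℝ} (hs : 0 ≤ s) (ht : 0 ≤ t) :
    phi s t = (1 - s / (s + t)) ^ 2 * s + (s / (s + t)) ^ 2 * t := by
  unfold phi
  rcases (add_nonneg hs ht).eq_or_lt with h | h
  · have hs0 : s = 0 := by linarith
    have ht0 : t = 0 := by linarith
    subst hs0; subst ht0; simp
  · field_simp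
    ring

lemma sum_phi_le {ι : Type*} (S : Finset ι) (s t : ι → ℝ) (hs : ∀ i ∈ S, 0 ≤ s i)
    (ht : ∀ i ∈ S, 0 ≤ t i) : ∑ i ∈ S, phi (s i) (t i) ≤ phi (∑ i ∈ S, s i) (∑ i ∈ S, t i) := by
  rw [phi_eq (Finset.sum_nonneg hs) (Finset.sum_nonneg ht), Finset.mul_sum, Finset.mul_sum,
    ← Finset.sum_add_distrib]
  exact Finset.sum_le_sum (fun i hi => phi_le (hs i hi) (ht i hi) _)

lemma phi_lip {s t s' t' : ℝ} (hs : 0 ≤ s) (ht : 0 ≤ t) (hs' : 0 ≤ s') (ht' : 0 ≤ t') :
    phi s t ≤ phi s' t' + |s - s'| + |t - t'| := by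
  have h1 := phi_le hs ht (s' / (s' + t'))
  rw [phi_eq hs' ht']
  set θ := s' / (s' + t') with hθ
  have h0 : 0 ≤ θ := by positivity
  have h2 : θ ≤ 1 := div_le_one_of_le₀ (by linarith) (by linarith)
  have e1 : (1 - θ) ^ 2 * (s - s') ≤ |s - s'| := by
    have : (1 - θ) ^ 2 ≤ 1 := by nlinarith
    have h3 := le_abs_self (s - s')
    have h4 := abs_nonneg (s - s')
    nlinarith [sq_nonneg (1 - θ)]
  have e2 : θ ^ 2 * (t - t') ≤ |t - t'| := by
    have : θ ^ 2 ≤ 1 := by nlinarith
    have h3 := le_abs_self (t - t')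
    have h4 := abs_nonneg (t - t')
    nlinarith [sq_nonneg θ]
  nlinarith

lemma negMulLog_pair {s t l : ℝ} (hs : 0 ≤ s) (ht : 0 ≤ t) (hl : 0 < l) :
    Real.negMulLog s + Real.negMulLog t ≤
      Real.negMulLog (s + t) + l * (s + t) + l⁻¹ * phi s t := by
  rcases hs.eq_or_lt with rfl | hs
  · simp [phi]; positivity
  rcases ht.eq_or_lt with rfl | ht
  · simp [phi]; positivity
  have hst : 0 < s + t := by positivity
  set u := Real.sqrt (s / (s + t)) with hu
  set w := Real.sqrt (t / (s + t)) with hw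
  have hu0 : 0 < u := Real.sqrt_pos.2 (by positivity)
  have hw0 : 0 < w := Real.sqrt_pos.2 (by positivity)
  have hu2 : u ^ 2 = s / (s + t) := Real.sq_sqrt (by positivity)
  have hw2 : w ^ 2 = t / (s + t) := Real.sq_sqrt (by positivity)
  have huw : u ^ 2 + w ^ 2 = 1 := by rw [hu2, hw2]; field_simp
  have hs' : s = (s + t) * u ^ 2 := by rw [hu2]; field_simp
  have ht' : t = (s + t) * w ^ 2 := by rw [hw2]; field_simp
  have hlogs : Real.log s = Real.log (s + t) + 2 * Real.log u := by
    conv_lhs => rw [hs']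
    rw [Real.log_mul hst.ne' (by positivity), Real.log_pow]; push_cast; ring
  have hlogt : Real.log t = Real.log (s + t) + 2 * Real.log w := by
    conv_lhs => rw [ht']
    rw [Real.log_mul hst.ne' (by positivity), Real.log_pow]; push_cast; ring
  have h1 : -Real.log u ≤ u⁻¹ - 1 := by
    have := Real.log_le_sub_one_of_pos (inv_pos.2 hu0)
    rwa [Real.log_inv] at this
  have h2 : -Real.log w ≤ w⁻¹ - 1 := by
    have := Real.log_le_sub_one_of_pos (inv_pos.2 hw0)
    rwa [Real.log_inv] at this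
  have h3 : s * (-Real.log u) ≤ (s + t) * (u - u ^ 2) := by
    calc s * (-Real.log u) ≤ s * (u⁻¹ - 1) := mul_le_mul_of_nonneg_left h1 hs.le
      _ = (s + t) * u ^ 2 * (u⁻¹ - 1) := by rw [← hs']
      _ = (s + t) * (u - u ^ 2) := by field_simp
  have h4 : t * (-Real.log w) ≤ (s + t) * (w - w ^ 2) := by
    calc t * (-Real.log w) ≤ t * (w⁻¹ - 1) := mul_le_mul_of_nonneg_left h2 ht.le
      _ = (s + t) * w ^ 2 * (w⁻¹ - 1) := by rw [← ht']
      _ = (s + t) * (w - w ^ 2) := by field_simp
  have hu1 : u ≤ 1 := by nlinarith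
  have hw1 : w ≤ 1 := by nlinarith
  have h5 : u + w - 1 ≤ u * w := by nlinarith
  have h6 : 2 * (u * w) ≤ l + l⁻¹ * (u * w) ^ 2 := by
    have h7 : 0 ≤ l⁻¹ * (l - u * w) ^ 2 := by positivity
    have h8 : l⁻¹ * (l - u * w) ^ 2 = l - 2 * (u * w) + l⁻¹ * (u * w) ^ 2 := by
      field_simp
      ring
    linarith
  have h9 : phi s t = (s + t) * (u * w) ^ 2 := by
    unfold phi
    rw [mul_pow, hu2, hw2]; field_simp
  rw [h9]
  unfold Real.negMulLog
  rw [hlogs, hlogt]
  have h10 : (s + t) * (2 * (u * w)) ≤ (s + t) * (l + l⁻¹ * (u * w) ^ 2) :=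
    mul_le_mul_of_nonneg_left h6 hst.le
  have h11 : (s + t) * (u + w - 1) ≤ (s + t) * (u * w) := mul_le_mul_of_nonneg_left h5 hst.le
  have h12 : (s + t) * (u ^ 2 + w ^ 2) = (s + t) * 1 := by rw [huw]
  nlinarith

/-! ### entropy of finite valued maps -/

lemma negMulLog_sum_le {ι : Type*} (s : Finset ι) (f : ι → ℝ) (hf : ∀ i ∈ s, 0 ≤ f i) :
    Real.negMulLog (∑ i ∈ s, f i) ≤ ∑ i ∈ s, Real.negMulLog (f i) := by
  classical
  induction s using Finset.induction_on with
  | empty => simp
  | insert a s ha ih =>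
    rw [Finset.sum_insert ha, Finset.sum_insert ha]
    have h1 := ih (fun i hi => hf i (Finset.mem_insert_of_mem hi))
    have h2 := negMulLog_add_le (hf a (Finset.mem_insert_self a s))
      (Finset.sum_nonneg (fun i hi => hf i (Finset.mem_insert_of_mem hi)))
    linarith

variable {Ω : Type*} [MeasurableSpace Ω]

section

variable {α β : Type*} [Fintype α] [Fintype β] [MeasurableSpace α] [MeasurableSingletonClass α]
  [MeasurableSpace β] [MeasurableSingletonClass β]

lemma real_preimage_comp (μ : Measure Ω) [IsProbabilityMeasure μ] {X : Ω → α}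
    (hX : Measurable X) (S : Finset α) :
    μ.real (X ⁻¹' (S : Set α)) = ∑ a ∈ S, μ.real (X ⁻¹' {a}) := by
  have : IsProbabilityMeasure (μ.map X) := Measure.isProbabilityMeasure_map hX.aemeasurable
  have h2 : ∀ a, μ.real (X ⁻¹' {a}) = (μ.map X).real {a} := by
    intro a
    rw [map_measureReal_apply hX (measurableSet_singleton a)]
  simp_rw [h2]
  rw [sum_measureReal_singleton, map_measureReal_apply hX (Finset.measurableSet S)]

lemma real_preimage_fun (μ : Measure Ω) [IsProbabilityMeasure μ] {X : Ω → α}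
    (hX : Measurable X) [DecidableEq β] (F : α → β) (b : β) :
    μ.real ((fun x => F (X x)) ⁻¹' {b}) =
      ∑ a with F a = b, μ.real (X ⁻¹' {a}) := by
  rw [← real_preimage_comp μ hX]
  congr 1
  ext x
  simp

lemma H_comp_le (μ : Measure Ω) [IsProbabilityMeasure μ] {X : Ω → α} (hX : Measurable X)
    (F : α → β) : shannonEntropy μ (fun x => F (X x)) ≤ shannonEntropy μ X := by
  classical
  unfold shannonEntropy
  calc ∑ b, Real.negMulLog (μ.real ((fun x => F (X x)) ⁻¹' {b}))
      ≤ ∑ b, ∑ a with F a = b, Real.negMulLog (μ.real (X ⁻¹' {a})) := by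
        refine Finset.sum_le_sum (fun b _ => ?_)
        rw [real_preimage_fun μ hX F b]
        exact negMulLog_sum_le _ _ (fun _ _ => measureReal_nonneg)
    _ = ∑ a, Real.negMulLog (μ.real (X ⁻¹' {a})) := Finset.sum_fiberwise _ _ _

lemma H_prod_le (μ : Measure Ω) [IsProbabilityMeasure μ] {X : Ω → α} {Y : Ω → β}
    (hX : Measurable X) (hY : Measurable Y) :
    shannonEntropy μ (fun x => (X x, Y x)) ≤ shannonEntropy μ X + shannonEntropy μ Y := by
  classical
  have hXY : Measurable (fun x => (X x, Y x)) := hX.prodMk hY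
  set p : α × β → ℝ := fun c => μ.real ((fun x => (X x, Y x)) ⁻¹' {c}) with hp
  set pX : α → ℝ := fun a => μ.real (X ⁻¹' {a}) with hpX
  set pY : β → ℝ := fun b => μ.real (Y ⁻¹' {b}) with hpY
  have hp0 : ∀ c, 0 ≤ p c := fun _ => measureReal_nonneg
  have hX0 : ∀ c, 0 ≤ pX c := fun _ => measureReal_nonneg
  have hY0 : ∀ c, 0 ≤ pY c := fun _ => measureReal_nonneg
  have hmX : ∀ a, ∑ b, p (a, b) = pX a := by
    intro a
    have h := real_preimage_fun μ hXY (Prod.fst : α × β → α) a
    simp only at h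
    change pX a = _ at h
    rw [h]
    symm
    rw [Finset.sum_filter, Fintype.sum_prod_type]
    rw [Finset.sum_eq_single a]
    · simp [hp]
    · intro a' _ hne; simp [hne]
    · simp
  have hmY : ∀ b, ∑ a, p (a, b) = pY b := by
    intro b
    have h := real_preimage_fun μ hXY (Prod.snd : α × β → β) b
    simp only at h
    change pY b = _ at h
    rw [h]
    symm
    rw [Finset.sum_filter, Fintype.sum_prod_type_right]
    rw [Finset.sum_eq_single b]
    · simp [hp]
    · intro b' _ hne; simp [hne]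
    · simp
  have hple1 : ∀ a b, p (a, b) ≤ pX a := fun a b => by
    rw [← hmX a]
    exact Finset.single_le_sum (f := fun b => p (a, b)) (fun b _ => hp0 _) (Finset.mem_univ b)
  have hple2 : ∀ a b, p (a, b) ≤ pY b := fun a b => by
    rw [← hmY b]
    exact Finset.single_le_sum (f := fun a => p (a, b)) (fun a _ => hp0 _) (Finset.mem_univ a)
  have hg := gibbs p (fun c => pX c.1 * pY c.2) hp0 (sum_measureReal_preimage μ hXY)
    (fun c => mul_nonneg (hX0 _) (hY0 _))
    (by
      rw [Fintype.sum_prod_type]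
      simp only
      simp_rw [← Finset.mul_sum]
      rw [← Finset.sum_mul]
      have e1 : ∑ i, pX i = 1 := sum_measureReal_preimage μ hX
      have e2 : ∑ i, pY i = 1 := sum_measureReal_preimage μ hY
      rw [e1, e2]; norm_num)
    (by
      rintro ⟨a, b⟩ hne
      have hpos : 0 < p (a, b) := lt_of_le_of_ne (hp0 _) (Ne.symm hne)
      exact mul_pos (hpos.trans_le (hple1 a b)) (hpos.trans_le (hple2 a b)))
  refine hg.trans ?_
  have key : ∀ a b, p (a, b) * (-Real.log (pX a * pY b)) =
      p (a, b) * (-Real.log (pX a)) + p (a, b) * (-Real.log (pY b)) := by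
    intro a b
    rcases (hp0 (a, b)).eq_or_lt with h | h
    · rw [← h]; simp
    · rw [Real.log_mul (h.trans_le (hple1 a b)).ne' (h.trans_le (hple2 a b)).ne']; ring
  rw [Fintype.sum_prod_type]
  simp only
  simp_rw [key, Finset.sum_add_distrib]
  unfold shannonEntropy
  refine le_of_eq ?_
  congr 1
  · refine Finset.sum_congr rfl (fun a _ => ?_)
    rw [← Finset.sum_mul, hmX a]
    simp [Real.negMulLog, hpX]
  · rw [Finset.sum_comm]
    refine Finset.sum_congr rfl (fun b _ => ?_)
    rw [← Finset.sum_mul, hmY b]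
    simp [Real.negMulLog, hpY]

/-- conditional variance of the binary variable `b` given `X`, in unnormalised form -/
noncomputable def CV (μ : Measure Ω) (X : Ω → α) (b : Ω → Bool) : ℝ :=
  ∑ a, phi (μ.real ((fun x => (X x, b x)) ⁻¹' {(a, true)}))
    (μ.real ((fun x => (X x, b x)) ⁻¹' {(a, false)}))

lemma real_true_add_false (μ : Measure Ω) [IsProbabilityMeasure μ] {X : Ω → α} {b : Ω → Bool}
    (hX : Measurable X) (hb : Measurable b) (a : α) :
    μ.real ((fun x => (X x, b x)) ⁻¹' {(a, true)}) +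
      μ.real ((fun x => (X x, b x)) ⁻¹' {(a, false)}) = μ.real (X ⁻¹' {a}) := by
  classical
  have hXY : Measurable (fun x => (X x, b x)) := hX.prodMk hb
  have h := real_preimage_fun μ hXY (Prod.fst : α × Bool → α) a
  simp only at h
  change μ.real (X ⁻¹' {a}) = _ at h
  rw [h, Finset.sum_filter, Fintype.sum_prod_type, Finset.sum_eq_single a]
  · simp
  · intro a' _ hne; simp [hne]
  · simp

lemma H_step (μ : Measure Ω) [IsProbabilityMeasure μ] {X : Ω → α} {b : Ω → Bool}
    (hX : Measurable X) (hb : Measurable b) {l : ℝ} (hl : 0 < l) :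
    shannonEntropy μ (fun x => (X x, b x)) ≤ shannonEntropy μ X + l + l⁻¹ * CV μ X b := by
  unfold shannonEntropy CV
  rw [Fintype.sum_prod_type]
  simp only [Fintype.sum_bool]
  calc ∑ a, (Real.negMulLog (μ.real ((fun x => (X x, b x)) ⁻¹' {(a, true)})) +
        Real.negMulLog (μ.real ((fun x => (X x, b x)) ⁻¹' {(a, false)})))
      ≤ ∑ a, (Real.negMulLog (μ.real (X ⁻¹' {a})) + l * μ.real (X ⁻¹' {a}) +
          l⁻¹ * phi (μ.real ((fun x => (X x, b x)) ⁻¹' {(a, true)}))
            (μ.real ((fun x => (X x, b x)) ⁻¹' {(a, false)}))) := by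
        refine Finset.sum_le_sum (fun a _ => ?_)
        rw [← real_true_add_false μ hX hb a]
        exact negMulLog_pair measureReal_nonneg measureReal_nonneg hl
    _ = _ := by
        rw [Finset.sum_add_distrib, Finset.sum_add_distrib, ← Finset.mul_sum, ← Finset.mul_sum,
          sum_measureReal_preimage μ hX, mul_one]

lemma CV_nonneg (μ : Measure Ω) (X : Ω → α) (b : Ω → Bool) : 0 ≤ CV μ X b :=
  Finset.sum_nonneg (fun _ _ => phi_nonneg measureReal_nonneg measureReal_nonneg)

lemma CV_mono (μ : Measure Ω) [IsProbabilityMeasure μ] {X : Ω → α} {b : Ω → Bool}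
    (hX : Measurable X) (hb : Measurable b) (F : α → β) :
    CV μ X b ≤ CV μ (fun x => F (X x)) b := by
  classical
  unfold CV
  rw [← Finset.sum_fiberwise (g := F)]
  refine Finset.sum_le_sum (fun c _ => ?_)
  have hXb : Measurable (fun x => (X x, b x)) := hX.prodMk hb
  have key : ∀ v : Bool, μ.real ((fun x => (F (X x), b x)) ⁻¹' {(c, v)}) =
      ∑ a with F a = c, μ.real ((fun x => (X x, b x)) ⁻¹' {(a, v)}) := by
    intro v
    have h := real_preimage_fun μ hXb (fun q : α × Bool => (F q.1, q.2)) (c, v)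
    simp only at h
    rw [h, Finset.sum_filter, Finset.sum_filter, Fintype.sum_prod_type]
    refine Finset.sum_congr rfl (fun a _ => ?_)
    rw [Finset.sum_eq_single v]
    · simp
    · intro v' _ hne; simp [hne]
    · simp
  rw [key true, key false]
  exact sum_phi_le _ _ _ (fun _ _ => measureReal_nonneg) (fun _ _ => measureReal_nonneg)

lemma H_inv (μ : Measure Ω) {T : Ω → Ω} (hT : MeasurePreserving T μ μ) {X : Ω → α}
    (hX : Measurable X) : shannonEntropy μ (fun x => X (T x)) = shannonEntropy μ X := by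
  unfold shannonEntropy
  refine Finset.sum_congr rfl (fun a _ => ?_)
  congr 1
  have : (fun x => X (T x)) ⁻¹' {a} = T ⁻¹' (X ⁻¹' {a}) := rfl
  rw [this, Measure.real, hT.measure_preimage (hX (measurableSet_singleton a)).nullMeasurableSet]
  rfl

lemma CV_inv (μ : Measure Ω) {T : Ω → Ω} (hT : MeasurePreserving T μ μ) {X : Ω → α}
    {b : Ω → Bool} (hX : Measurable X) (hb : Measurable b) :
    CV μ (fun x => X (T x)) (fun x => b (T x)) = CV μ X b := by
  unfold CV
  have hXb : Measurable (fun x => (X x, b x)) := hX.prodMk hb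
  refine Finset.sum_congr rfl (fun a _ => ?_)
  have key : ∀ v : Bool, μ.real ((fun x => (X (T x), b (T x))) ⁻¹' {(a, v)}) =
      μ.real ((fun x => (X x, b x)) ⁻¹' {(a, v)}) := by
    intro v
    have : (fun x => (X (T x), b (T x))) ⁻¹' {(a, v)} =
      T ⁻¹' ((fun x => (X x, b x)) ⁻¹' {(a, v)}) := rfl
    rw [this, Measure.real,
      hT.measure_preimage (hXb (measurableSet_singleton _)).nullMeasurableSet]
    rfl
  rw [key, key]

lemma H_const (μ : Measure Ω) [IsProbabilityMeasure μ] (c : α) :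
    shannonEntropy μ (fun _ : Ω => c) = 0 := by
  classical
  unfold shannonEntropy
  refine Finset.sum_eq_zero (fun a _ => ?_)
  by_cases h : c = a
  · subst h; simp
  · have : (fun _ : Ω => c) ⁻¹' {a} = ∅ := by
      ext x; simp [h]
    rw [this]; simp

end

end Pool.Agent.H98R3.SN
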