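import Pool.Agent.H98R3.SN.N1
import Pool.Agent.H98R3.SN.Defs

/-! Positive entropy is carried by a letter. -/

set_option autoImplicit false

open MeasureTheory Filter Topology
open Pool.Agent.Helper179.KS

namespace Pool.Agent.H98R3.SN

section general

variable {Ω : Type*} [MeasurableSpace Ω] {μ : Measure Ω} [IsProbabilityMeasure μ] {T : Ω → Ω}

/-- the partition `X` has zero entropy rate -/
def ZeroE {α : Type*} [Fintype α] (μ : Measure Ω) (T : Ω → Ω) (X : Ω → α) : Prop :=
  ∀ ε : ℝ, 0 < ε → ∀ᶠ n : ℕ in atTop, shannonEntropy μ (itinerary T X n) ≤ ε * n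

variable {α β : Type*} [Fintype α] [Fintype β] [MeasurableSpace α] [MeasurableSingletonClass α]
  [MeasurableSpace β] [MeasurableSingletonClass β]

lemma ZeroE.comp (hT : Measurable T) {X : Ω → α} (hX : Measurable X) (h : ZeroE μ T X)
    (F : α → β) : ZeroE μ T (fun x => F (X x)) := by
  intro ε hε
  filter_upwards [h ε hε] with n hn
  refine le_trans ?_ hn
  exact H_comp_le μ (measurable_itinerary hT hX n) (fun w i => F (w i))

lemma ZeroE.prod (hT : Measurable T) {X : Ω → α} (hX : Measurable X) (h : ZeroE μ T X)
    {Y : Ω → β} (hY : Measurable Y) (h' : ZeroE μ T Y) : ZeroE μ T (fun x => (X x, Y x)) := by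
  intro ε hε
  filter_upwards [h (ε / 2) (by positivity), h' (ε / 2) (by positivity)] with n hn hn'
  have hm1 := measurable_itinerary hT hX n
  have hm2 := measurable_itinerary hT hY n
  have h1 := H_comp_le μ (hm1.prodMk hm2)
    (fun (w : (Fin n → α) × (Fin n → β)) (i : Fin n) => (w.1 i, w.2 i))
  have h2 := H_prod_le μ hm1 hm2
  have h3 : shannonEntropy μ (itinerary T (fun x => (X x, Y x)) n) ≤
    shannonEntropy μ (fun x => (itinerary T X n x, itinerary T Y n x)) := h1
  linarith

lemma ZeroE.const (c : α) : ZeroE μ T (fun _ : Ω => c) := by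
  intro ε hε
  filter_upwards with n
  have : itinerary T (fun _ : Ω => c) n = fun _ => (fun _ => c) := rfl
  rw [this]
  have hc := H_const (α := Fin n → α) μ (fun _ => c)
  rw [hc]
  positivity

lemma ZeroE.shift (hT : MeasurePreserving T μ μ) {X : Ω → α} (hX : Measurable X)
    (h : ZeroE μ T X) : ZeroE μ T (fun x => X (T x)) := by
  intro ε hε
  filter_upwards [h ε hε] with n hn
  have h1 := H_inv μ hT (measurable_itinerary hT.measurable hX n)
  have h2 : itinerary T (fun x => X (T x)) n = fun x => itinerary T X n (T x) := by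
    funext x j
    simp only [itinerary]
    rw [← Function.iterate_succ_apply' T, Function.iterate_succ_apply]
  rw [h2, h1]
  exact hn

lemma itinerary_succ_le (hT : MeasurePreserving T μ μ) {X : Ω → α} (hX : Measurable X) (n m : ℕ) :
    shannonEntropy μ (itinerary T X (n + m)) ≤
      shannonEntropy μ (itinerary T X n) + shannonEntropy μ (itinerary T X m) := by
  have hm1 := measurable_itinerary hT.measurable hX n
  have hm2 := measurable_itinerary hT.measurable hX m
  have hTn := hT.iterate n
  have h1 := H_inv μ hTn hm2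
  have h2 := H_prod_le μ hm1 (hm2.comp hTn.measurable)
  have h3 := H_comp_le μ (hm1.prodMk (hm2.comp hTn.measurable))
    (fun (w : (Fin n → α) × (Fin m → α)) => (Fin.append w.1 w.2 : Fin (n + m) → α))
  have h4 : (fun x => (Fin.append (itinerary T X n x) ((itinerary T X m ∘ T^[n]) x) :
      Fin (n + m) → α)) = itinerary T X (n + m) := by
    funext x j
    refine Fin.addCases (fun i => ?_) (fun i => ?_) j
    · simp [itinerary]
    · simp only [Fin.append_right, Function.comp, itinerary, Fin.val_natAdd]
      rw [← Function.iterate_add_apply, add_comm]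
  simp only at h3
  rw [h4] at h3
  have h5 : shannonEntropy μ (itinerary T X m ∘ T^[n]) = shannonEntropy μ (itinerary T X m) := h1
  linarith

lemma itinerary_mul_le (hT : MeasurePreserving T μ μ) {X : Ω → α} (hX : Measurable X) (L : ℕ)
    (q : ℕ) : shannonEntropy μ (itinerary T X (q * L)) ≤ q * shannonEntropy μ (itinerary T X L) := by
  induction q with
  | zero =>
    rw [Nat.zero_mul]
    have : itinerary T X 0 = fun _ => Fin.elim0 := by funext x j; exact j.elim0
    rw [this, H_const (α := Fin 0 → α)]
    simp
  | succ q ih =>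
    rw [Nat.succ_mul]
    refine (itinerary_succ_le hT hX _ _).trans ?_
    push_cast
    linarith

lemma itinerary_le_mul (hT : MeasurePreserving T μ μ) {X : Ω → α} (hX : Measurable X) (n : ℕ) :
    shannonEntropy μ (itinerary T X n) ≤ n * shannonEntropy μ X := by
  have h := itinerary_mul_le hT hX 1 n
  rw [mul_one] at h
  refine h.trans ?_
  have h1 := H_comp_le μ hX (fun a : α => (fun _ : Fin 1 => a))
  have h2 : (fun x => (fun _ : Fin 1 => X x)) = itinerary T X 1 := by
    funext x j
    simp [itinerary]
  rw [h2] at h1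
  exact mul_le_mul_of_nonneg_left h1 (by positivity)

/-- if the entropy rate is not zero then all `H_L` are at least linear -/
lemma exists_rate (hT : MeasurePreserving T μ μ) {X : Ω → α} (hX : Measurable X)
    (h : ¬ ZeroE μ T X) : ∃ c : ℝ, 0 < c ∧ ∀ L : ℕ, c * L ≤ shannonEntropy μ (itinerary T X L) := by
  unfold ZeroE at h
  push Not at h
  obtain ⟨ε, hε, hfr⟩ := h
  refine ⟨ε / 2, by positivity, fun L => ?_⟩
  by_contra hlt
  push Not at hlt
  have hL : L ≠ 0 := by
    rintro rfl
    have := shannonEntropy_nonneg μ (itinerary T X 0)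
    simp at hlt
    linarith
  set C := L * shannonEntropy μ X with hC
  have hev : ∀ᶠ n : ℕ in atTop, C ≤ ε / 2 * n := by
    have : Tendsto (fun n : ℕ => ε / 2 * (n : ℝ)) atTop atTop :=
      tendsto_natCast_atTop_atTop.const_mul_atTop (by positivity)
    exact this.eventually_ge_atTop C
  obtain ⟨n, hn1, hn2⟩ := (hfr.and_eventually hev).exists
  have h1 : shannonEntropy μ (itinerary T X n) ≤
      (n / L : ℕ) * shannonEntropy μ (itinerary T X L) + shannonEntropy μ (itinerary T X (n % L)) := by
    have e : n = (n / L) * L + n % L := by rw [mul_comm]; exact (Nat.div_add_mod n L).symm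
    conv_lhs => rw [e]
    exact (itinerary_succ_le hT hX _ _).trans (by linarith [itinerary_mul_le hT hX L (n / L)])
  have h2 : shannonEntropy μ (itinerary T X (n % L)) ≤ C := by
    refine (itinerary_le_mul hT hX _).trans ?_
    have : ((n % L : ℕ) : ℝ) ≤ L := by exact_mod_cast (Nat.mod_lt n (Nat.pos_of_ne_zero hL)).le
    exact mul_le_mul_of_nonneg_right this (shannonEntropy_nonneg μ X)
  have h3 : ((n / L : ℕ) : ℝ) * shannonEntropy μ (itinerary T X L) ≤ ε / 2 * n := by
    have e1 : ((n / L : ℕ) : ℝ) * shannonEntropy μ (itinerary T X L) ≤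
        ((n / L : ℕ) : ℝ) * (ε / 2 * L) := mul_le_mul_of_nonneg_left hlt.le (by positivity)
    have e2 : ((n / L : ℕ) : ℝ) * L ≤ n := by
      exact_mod_cast Nat.div_mul_le_self n L
    have e3 : ((n / L : ℕ) : ℝ) * (ε / 2 * L) = ε / 2 * (((n / L : ℕ) : ℝ) * L) := by ring
    rw [e3] at e1
    exact e1.trans (mul_le_mul_of_nonneg_left e2 (by positivity))
  linarith

open Classical in
/-- indicator of a set as a Boolean valued map -/
noncomputable def ind (E : Set Ω) : Ω → Bool := fun x => decide (x ∈ E)

omit [MeasurableSpace Ω] in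
lemma ind_preimage_true (E : Set Ω) : ind E ⁻¹' {true} = E := by
  ext x; simp [ind]

lemma measurable_ind {E : Set Ω} (hE : MeasurableSet E) : Measurable (ind E) := by
  refine measurable_to_bool ?_
  rw [ind_preimage_true]; exact hE

lemma H_ind (E : Set Ω) (hE : MeasurableSet E) : shannonEntropy μ (ind E) =
    Real.negMulLog (μ.real E) + Real.negMulLog (1 - μ.real E) := by
  unfold shannonEntropy
  rw [Fintype.sum_bool, ind_preimage_true]
  have : ind E ⁻¹' {false} = Eᶜ := by
    ext x; simp [ind]
  rw [this, measureReal_compl hE]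
  simp

lemma zeroE_iUnion (hT : MeasurePreserving T μ μ) (E : ℕ → Set Ω)
    (hE : ∀ n, MeasurableSet (E n)) (h : ∀ n, ZeroE μ T (ind (E n))) :
    ZeroE μ T (ind (⋃ n, E n)) := by
  classical
  -- finite unions
  have hfin : ∀ m : ℕ, ZeroE μ T (ind (⋃ n ∈ Finset.range m, E n)) := by
    intro m
    induction m with
    | zero =>
      have : ind (⋃ n ∈ Finset.range 0, E n) = fun _ : Ω => false := by
        funext x; simp [ind]
      rw [this]; exact ZeroE.const false
    | succ m ih =>
      have hm : MeasurableSet (⋃ n ∈ Finset.range m, E n) :=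
        Finset.measurableSet_biUnion _ (fun n _ => hE n)
      have h1 := ZeroE.comp hT.measurable ((measurable_ind hm).prodMk (measurable_ind (hE m)))
        (ZeroE.prod hT.measurable (measurable_ind hm) ih (measurable_ind (hE m)) (h m))
        (fun q : Bool × Bool => q.1 || q.2)
      have h2 : (fun x => (ind (⋃ n ∈ Finset.range m, E n) x || ind (E m) x)) =
          ind (⋃ n ∈ Finset.range (m + 1), E n) := by
        funext x
        simp only [ind, Finset.range_add_one, Finset.mem_insert, Set.iUnion_iUnion_eq_or_left,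
          Set.mem_union]
        rw [← Bool.decide_or]
        simp only [decide_eq_decide]
        tauto
      rw [← h2]
      exact h1
  intro ε hε
  -- the small remainder
  set U := ⋃ n, E n with hU
  have hUm : MeasurableSet U := MeasurableSet.iUnion hE
  set A : ℕ → Set Ω := fun m => ⋃ n ∈ Finset.range m, E n with hA
  have hAm : ∀ m, MeasurableSet (A m) := fun m => Finset.measurableSet_biUnion _ (fun n _ => hE n)
  have hAmono : Monotone A := by
    intro m m' hmm
    apply Set.biUnion_subset_biUnion_left
    intro n hn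
    simp only [Finset.coe_range, Set.mem_Iio] at *
    exact lt_of_lt_of_le hn hmm
  have hAU : ⋃ m, A m = U := by
    ext x
    simp only [hA, hU, Set.mem_iUnion, Finset.mem_range]
    constructor
    · rintro ⟨m, n, _, hx⟩; exact ⟨n, hx⟩
    · rintro ⟨n, hx⟩; exact ⟨n + 1, n, by omega, hx⟩
  have hlim : Tendsto (fun m => μ.real (U \ A m)) atTop (𝓝 0) := by
    have h1 : Tendsto (fun m => μ (A m)) atTop (𝓝 (μ U)) := by
      rw [← hAU]; exact tendsto_measure_iUnion_atTop hAmono
    have h2 : Tendsto (fun m => μ.real (A m)) atTop (𝓝 (μ.real U)) :=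
      (ENNReal.tendsto_toReal (measure_ne_top μ U)).comp h1
    have h3 : ∀ m, μ.real (U \ A m) = μ.real U - μ.real (A m) := by
      intro m
      rw [measureReal_sdiff (by rw [← hAU]; exact Set.subset_iUnion A m) (hAm m)]
    simp_rw [h3]
    have := tendsto_const_nhds (x := μ.real U) |>.sub h2
    simpa using this
  have hH : Tendsto (fun m => shannonEntropy μ (ind (U \ A m))) atTop (𝓝 0) := by
    have h1 : ∀ m, shannonEntropy μ (ind (U \ A m)) = Real.negMulLog (μ.real (U \ A m)) +
      Real.negMulLog (1 - μ.real (U \ A m)) := fun m => H_ind _ (hUm.diff (hAm m))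
    simp_rw [h1]
    have h2 := (Real.continuous_negMulLog.tendsto 0).comp hlim
    have h3 : Tendsto (fun m => Real.negMulLog (1 - μ.real (U \ A m))) atTop (𝓝 0) := by
      have h4 : Tendsto (fun m => 1 - μ.real (U \ A m)) atTop (𝓝 1) := by
        simpa using (tendsto_const_nhds (x := (1 : ℝ))).sub hlim
      have h5 := (Real.continuous_negMulLog.tendsto 1).comp h4
      simpa [Function.comp_def] using h5
    have h6 := h2.add h3
    simpa [Function.comp_def] using h6
  obtain ⟨m, hm⟩ := (hH.eventually (gt_mem_nhds (show (0 : ℝ) < ε / 2 by positivity))).exists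
  filter_upwards [hfin m (ε / 2) (by positivity)] with n hn
  have hm1 := measurable_ind (hAm m)
  have hm2 := measurable_ind (hUm.diff (hAm m))
  have hi1 := measurable_itinerary hT.measurable hm1 n
  have hi2 := measurable_itinerary hT.measurable hm2 n
  have h1 := H_comp_le μ (hi1.prodMk hi2)
    (fun (w : (Fin n → Bool) × (Fin n → Bool)) (i : Fin n) => (w.1 i || w.2 i))
  have h2 := H_prod_le μ hi1 hi2
  have h3 : (fun x => fun i : Fin n => (itinerary T (ind (A m)) n x i ||
      itinerary T (ind (U \ A m)) n x i)) = itinerary T (ind U) n := by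
    funext x i
    simp only [itinerary, ind]
    rw [← Bool.decide_or]
    simp only [decide_eq_decide, Set.mem_sdiff]
    have : ∀ y, y ∈ A m → y ∈ U := fun y hy => by rw [← hAU]; exact Set.mem_iUnion.2 ⟨m, hy⟩
    have := this (T^[i.val] x)
    tauto
  simp only at h1
  rw [h3] at h1
  have h4 := itinerary_le_mul hT hm2 n
  have h5 : (n : ℝ) * shannonEntropy μ (ind (U \ A m)) ≤ n * (ε / 2) :=
    mul_le_mul_of_nonneg_left hm.le (by positivity)
  have hn' : shannonEntropy μ (itinerary T (ind (A m)) n) ≤ ε / 2 * n := hn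
  linarith

lemma zeroE_fin (hT : MeasurePreserving T μ μ)
    (h : ∀ E : Set Ω, MeasurableSet E → ZeroE μ T (ind E)) {k : ℕ} {X : Ω → Fin k}
    (hX : Measurable X) : ZeroE μ T X := by
  classical
  set Y : ℕ → Ω → Fin (k + 1) := fun m x =>
    if h : (X x).val < m then ⟨(X x).val + 1, by omega⟩ else 0 with hY
  have hYm : ∀ m, Measurable (Y m) := by
    intro m
    exact (measurable_from_top (f := fun q : Fin k => if h : q.val < m then
      (⟨q.val + 1, by omega⟩ : Fin (k + 1)) else 0)).comp hX
  have hZ : ∀ m, ZeroE μ T (Y m) := by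
    intro m
    induction m with
    | zero =>
      have : Y 0 = fun _ => 0 := by
        funext x; simp [hY]
      rw [this]; exact ZeroE.const 0
    | succ m ih =>
      have hEm : MeasurableSet {x | (X x).val = m} :=
        hX (Set.toFinite {q : Fin k | q.val = m}).measurableSet
      have h1 := ZeroE.comp hT.measurable ((hYm m).prodMk (measurable_ind hEm))
        (ZeroE.prod hT.measurable (hYm m) ih (measurable_ind hEm) (h _ hEm))
        (fun q : Fin (k + 1) × Bool => if q.2 then (if hm : m + 1 < k + 1 then
          (⟨m + 1, hm⟩ : Fin (k + 1)) else 0) else q.1)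
      have h2 : (fun x => if ind {x | (X x).val = m} x then (if hm : m + 1 < k + 1 then
          (⟨m + 1, hm⟩ : Fin (k + 1)) else 0) else Y m x) = Y (m + 1) := by
        funext x
        simp only [ind, hY, Set.mem_ofPred_eq, decide_eq_true_eq]
        have hxk := (X x).isLt
        by_cases h3 : (X x).val = m
        · rw [if_pos h3, dif_pos (by omega), dif_pos (by omega)]
          ext; simp [h3]
        · rw [if_neg h3]
          by_cases h4 : (X x).val < m
          · rw [dif_pos h4, dif_pos (by omega)]
          · rw [dif_neg h4, dif_neg (by omega)]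
      rw [← h2]
      exact h1
  rcases Nat.eq_zero_or_pos k with hk | hk
  · subst hk
    -- no points at all
    intro ε hε
    filter_upwards with n
    have : IsEmpty Ω := ⟨fun x => (X x).elim0⟩
    have h0 : μ = 0 := Measure.eq_zero_of_isEmpty μ
    exact absurd h0 (IsProbabilityMeasure.ne_zero μ)
  · have h1 := ZeroE.comp hT.measurable (hYm k) (hZ k)
      (fun q : Fin (k + 1) => (if hq : q.val - 1 < k then ⟨q.val - 1, hq⟩ else ⟨0, hk⟩ : Fin k))
    have h2 : (fun x => (if hq : (Y k x).val - 1 < k then ⟨(Y k x).val - 1, hq⟩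
        else ⟨0, hk⟩ : Fin k)) = X := by
      funext x
      have hxk := (X x).isLt
      have : (Y k x).val = (X x).val + 1 := by simp [hY]
      rw [dif_pos (by omega)]
      ext; simp [this]
    rw [← h2]
    exact h1

lemma ksEntropy_le_zero (hT : MeasurePreserving T μ μ)
    (h : ∀ E : Set Ω, MeasurableSet E → ZeroE μ T (ind E)) : ksEntropy μ T ≤ 0 := by
  have h0 : (0 : EReal) = ((0 : ℝ) : EReal) := rfl
  rw [h0, ksEntropy_le_iff]
  intro k P hP
  unfold partitionEntropy
  rw [limsup_coe_le_iff]
  intro ε hε
  filter_upwards [zeroE_fin hT h hP ε hε, eventually_gt_atTop 0] with n hn hn0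
  rw [zero_add, div_le_iff₀ (by exact_mod_cast hn0)]
  exact hn

end general

/-! ### the shift space -/

section shiftspace

variable {Λ : Type*} [MeasurableSpace Λ]

lemma shift_iter (n : ℕ) (x : ℕ → Λ) (k : ℕ) : shift^[n] x k = x (n + k) := by
  induction n generalizing x with
  | zero => simp
  | succ n ih =>
    rw [Function.iterate_succ_apply, ih]
    simp only [shift]
    congr 1
    ring

lemma measurable_shift : Measurable (shift : (ℕ → Λ) → (ℕ → Λ)) :=
  measurable_pi_lambda _ (fun n => measurable_pi_apply (n + 1))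

/-- positive entropy is seen by a single letter -/
lemma exists_letter [Countable Λ] [DiscreteMeasurableSpace Λ] (μ : Measure (ℕ → Λ))
    [IsProbabilityMeasure μ] (hμ : MeasurePreserving shift μ μ) (hpos : 0 < ksEntropy μ shift) :
    ∃ (a : Λ) (c : ℝ), 0 < c ∧
      ∀ L : ℕ, c * L ≤ shannonEntropy μ (itinerary shift (ind {x : ℕ → Λ | x 0 = a}) L) := by
  classical
  have hcyli : ∀ (i : ℕ) (a : Λ), MeasurableSet {x : ℕ → Λ | x i = a} := fun i a =>
    (measurable_pi_apply (X := fun _ : ℕ => Λ) i) (MeasurableSet.of_discrete (s := {a}))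
  have hcyl : ∀ a : Λ, MeasurableSet {x : ℕ → Λ | x 0 = a} := hcyli 0
  by_contra hno
  push Not at hno
  have hletter : ∀ a : Λ, ZeroE μ shift (ind {x : ℕ → Λ | x 0 = a}) := by
    intro a
    by_contra hz
    obtain ⟨c, hc, hL⟩ := exists_rate hμ (measurable_ind (hcyl a)) hz
    obtain ⟨L, hL'⟩ := hno a c hc
    exact absurd (hL L) (not_le.2 hL')
  have hall : ∀ (a : Λ) (i : ℕ), ZeroE μ shift (ind {x : ℕ → Λ | x i = a}) := by
    intro a i
    induction i with
    | zero => exact hletter a
    | succ i ih =>
      have h3 := ZeroE.shift hμ (measurable_ind (hcyli i a)) ih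
      have h4 : (fun x => ind {x : ℕ → Λ | x i = a} (shift x)) =
          ind {x : ℕ → Λ | x (i + 1) = a} := by
        funext x; rfl
      rw [h4] at h3
      exact h3
  refine absurd (ksEntropy_le_zero hμ ?_) (not_le.2 hpos)
  -- the sigma-algebra of sets of zero entropy
  let m' : MeasurableSpace (ℕ → Λ) :=
    { MeasurableSet' := fun E => MeasurableSet E ∧ ZeroE μ shift (ind E)
      measurableSet_empty := by
        refine ⟨MeasurableSet.empty, ?_⟩
        have : ind (∅ : Set (ℕ → Λ)) = fun _ => false := by funext x; simp [ind]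
        rw [this]; exact ZeroE.const false
      measurableSet_compl := by
        rintro E ⟨hE, hz⟩
        refine ⟨hE.compl, ?_⟩
        have h1 := ZeroE.comp hμ.measurable (measurable_ind hE) hz (fun b : Bool => !b)
        have h2 : (fun x => !(ind E x)) = ind Eᶜ := by
          funext x; simp [ind]
        rw [← h2]
        exact h1
      measurableSet_iUnion := by
        intro E hE
        exact ⟨MeasurableSet.iUnion (fun n => (hE n).1),
          zeroE_iUnion hμ E (fun n => (hE n).1) (fun n => (hE n).2)⟩ }
  have hle : (MeasurableSpace.pi : MeasurableSpace (ℕ → Λ)) ≤ m' := by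
    refine iSup_le (fun i => ?_)
    rintro _ ⟨A, -, rfl⟩
    have hA : (fun x : ℕ → Λ => x i) ⁻¹' A = ⋃ a ∈ A, {x : ℕ → Λ | x i = a} := by
      ext x; simp
    rw [hA]
    refine MeasurableSet.biUnion (Set.to_countable A) (fun a _ => ?_)
    exact ⟨hcyli i a, hall a i⟩
  intro E hE
  exact (hle E hE).2

end shiftspace

end Pool.Agent.H98R3.SN
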