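import Pool.Agent.H98R3.SN.N2

/-! Conditional variances bounded below; the type-counting bound. -/

set_option autoImplicit false

open MeasureTheory Filter Topology
open Pool.Agent.Helper179.KS

namespace Pool.Agent.H98R3.SN

section xside

variable {Ω : Type*} [MeasurableSpace Ω] {μ : Measure Ω} [IsProbabilityMeasure μ] {T : Ω → Ω}

/-- conditional variance of `f` given the next `m` values -/
noncomputable def VV (μ : Measure Ω) (T : Ω → Ω) (f : Ω → Bool) (m : ℕ) : ℝ :=
  CV μ (fun x => itinerary T f m (T x)) f

lemma VV_anti (hT : Measurable T) {f : Ω → Bool} (hf : Measurable f) {m m' : ℕ} (h : m ≤ m') :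
    VV μ T f m' ≤ VV μ T f m := by
  unfold VV
  exact CV_mono μ ((measurable_itinerary hT hf m').comp hT) hf
    (fun (w : Fin m' → Bool) (i : Fin m) => w (Fin.castLE h i))

lemma VV_lower (hT : MeasurePreserving T μ μ) {f : Ω → Bool} (hf : Measurable f) {c : ℝ}
    (hc : 0 < c) (h : ∀ L : ℕ, c * L ≤ shannonEntropy μ (itinerary T f L)) (m : ℕ) :
    c ^ 2 / 16 ≤ VV μ T f m := by
  by_contra hlt
  push Not at hlt
  have hstep : ∀ k : ℕ, shannonEntropy μ (itinerary T f (m + k + 1)) ≤
      shannonEntropy μ (itinerary T f (m + k)) + c / 2 := by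
    intro k
    have hm := measurable_itinerary hT.measurable hf (m + k)
    have h1 := H_step μ (hm.comp hT.measurable) hf (show 0 < c / 4 by positivity)
    have h2 := H_comp_le μ ((hm.comp hT.measurable).prodMk hf)
      (fun (w : (Fin (m + k) → Bool) × Bool) => (Fin.cons w.2 w.1 : Fin (m + k + 1) → Bool))
    have h3 : (fun x => (Fin.cons (f x) ((itinerary T f (m + k) ∘ T) x) :
        Fin (m + k + 1) → Bool)) = itinerary T f (m + k + 1) := by
      funext x j
      refine Fin.cases ?_ (fun i => ?_) j
      · simp [itinerary]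
      · simp [itinerary]
    simp only at h2
    rw [h3] at h2
    have h4 : shannonEntropy μ (itinerary T f (m + k) ∘ T) =
        shannonEntropy μ (itinerary T f (m + k)) := H_inv μ hT hm
    have h5 : CV μ (itinerary T f (m + k) ∘ T) f ≤ VV μ T f m :=
      VV_anti hT.measurable hf (Nat.le_add_right m k)
    have h6 : (c / 4)⁻¹ * CV μ (itinerary T f (m + k) ∘ T) f ≤ (c / 4)⁻¹ * (c ^ 2 / 16) :=
      mul_le_mul_of_nonneg_left (h5.trans hlt.le) (by positivity)
    have h7 : (c / 4)⁻¹ * (c ^ 2 / 16) = c / 4 := by field_simp; norm_num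
    linarith
  have hall : ∀ k : ℕ, shannonEntropy μ (itinerary T f (m + k)) ≤
      shannonEntropy μ (itinerary T f m) + k * (c / 2) := by
    intro k
    induction k with
    | zero => simp
    | succ k ih =>
      have := hstep k
      rw [← add_assoc]
      push_cast
      linarith
  obtain ⟨k, hk⟩ := exists_nat_gt (shannonEntropy μ (itinerary T f m) / (c / 2))
  rw [div_lt_iff₀ (by positivity)] at hk
  have h1 := h (m + k)
  have h2 := hall k
  push_cast at h1
  have h3 : 0 ≤ c * (m : ℝ) := by positivity
  linarith

/-- keep the coordinates before `n` -/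
def pre (M n : ℕ) (v : ℕ → Bool) : Fin M → Bool := fun k => if k.val < n then v k else false

/-- keep the coordinates from `n` on -/
def suf (M n : ℕ) (v : ℕ → Bool) : Fin M → Bool := fun k => if n ≤ k.val then v k else false

/-- the binary sequence read along the orbit -/
def fw (T : Ω → Ω) (f : Ω → Bool) (x : Ω) : ℕ → Bool := fun n => f (T^[n] x)

lemma CV_suf_lower (hT : MeasurePreserving T μ μ) {f : Ω → Bool} (hf : Measurable f) {c : ℝ}
    (hc : 0 < c) (h : ∀ L : ℕ, c * L ≤ shannonEntropy μ (itinerary T f L)) (M k : ℕ)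
    (hk : k < M) :
    c ^ 2 / 16 ≤ CV μ (fun x => suf M (k + 1) (fw T f x)) (fun x => fw T f x k) := by
  have hm := (measurable_itinerary hT.measurable hf (M - 1 - k)).comp hT.measurable
  set F : (Fin (M - 1 - k) → Bool) → (Fin M → Bool) := fun w j =>
    if hj : k + 1 ≤ j.val then w ⟨j.val - (k + 1), by omega⟩ else false with hF
  have h1 := VV_lower hT hf hc h (M - 1 - k)
  have h2 : VV μ T f (M - 1 - k) ≤ CV μ (fun x => F (itinerary T f (M - 1 - k) (T x))) f :=
    CV_mono μ hm hf F
  have hFm : Measurable (fun x => F (itinerary T f (M - 1 - k) (T x))) :=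
    (measurable_of_finite F).comp hm
  have h3 := CV_inv μ (hT.iterate k) hFm hf
  have h4 : (fun x => F (itinerary T f (M - 1 - k) (T (T^[k] x)))) =
      fun x => suf M (k + 1) (fw T f x) := by
    funext x j
    simp only [hF, suf, fw, itinerary]
    by_cases hj : k + 1 ≤ j.val
    · rw [dif_pos hj, if_pos hj]
      congr 1
      rw [← Function.iterate_succ_apply' T k x, ← Function.iterate_add_apply]
      congr 2
      omega
    · rw [dif_neg hj, if_neg hj]
  rw [h4] at h3
  have h5 : (fun x => f (T^[k] x)) = fun x => fw T f x k := rfl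
  rw [h5] at h3
  rw [h3]
  exact h1.trans h2

end xside

section unif

/-- the uniform measure on `Fin K` -/
noncomputable def u (K : ℕ) : Measure (Fin K) := ProbabilityTheory.uniformOn Set.univ

instance u_prob (K : ℕ) [NeZero K] : IsProbabilityMeasure (u K) := by
  unfold u
  exact ProbabilityTheory.isProbabilityMeasure_uniformOn Set.finite_univ Set.univ_nonempty

lemma u_real (K : ℕ) (p : Fin K → Prop) [DecidablePred p] :
    (u K).real {i | p i} = ((Finset.univ.filter p).card : ℝ) / K := by
  unfold u Measure.real
  rw [ProbabilityTheory.uniformOn_univ, ENNReal.toReal_div]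
  congr 1
  · have h : {i | p i} = ((Finset.univ.filter p : Finset (Fin K)) : Set (Fin K)) := by
      ext i; simp
    rw [h, Measure.count_apply_finset]
    simp
  · simp

variable {α : Type*} [Fintype α] [DecidableEq α] [MeasurableSpace α] [MeasurableSingletonClass α]

/-- number of indices of class `a` with bit `t` -/
def cc {K : ℕ} (cl : Fin K → α) (b : Fin K → Bool) (a : α) (t : Bool) : ℕ :=
  (Finset.univ.filter (fun i => cl i = a ∧ b i = t)).card

/-- unnormalised total conditional variance -/
noncomputable def CVc {K : ℕ} (cl : Fin K → α) (b : Fin K → Bool) : ℝ :=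
  ∑ a, phi (cc cl b a true) (cc cl b a false)

lemma phi_div (s t K : ℝ) (hK : K ≠ 0) : phi (s / K) (t / K) = phi s t / K := by
  unfold phi
  by_cases h : s + t = 0
  · rw [← add_div, h]; simp
  · rw [← add_div]; field_simp

lemma CV_u (K : ℕ) [NeZero K] (cl : Fin K → α) (b : Fin K → Bool) :
    CV (u K) cl b = CVc cl b / K := by
  unfold CV CVc cc
  rw [Finset.sum_div]
  refine Finset.sum_congr rfl (fun a _ => ?_)
  have hK : (K : ℝ) ≠ 0 := by exact_mod_cast NeZero.ne K
  have key : ∀ t : Bool, (fun x => (cl x, b x)) ⁻¹' {(a, t)} = {i | cl i = a ∧ b i = t} := by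
    intro t; ext i; simp
  rw [← phi_div _ _ _ hK, key, key, u_real, u_real]

/-- chain rule bound for the entropy of words of length `M` -/
lemma H_word_le {Ω : Type*} [MeasurableSpace Ω] (μ : Measure Ω) [IsProbabilityMeasure μ]
    (v : Ω → ℕ → Bool) (hv : Measurable v) {l : ℝ} (hl : 0 < l) (M : ℕ) :
    shannonEntropy μ (fun x => fun n : Fin M => v x n) ≤
      ∑ n ∈ Finset.range M, (l + l⁻¹ * CV μ (fun x => pre M n (v x)) (fun x => v x n)) := by
  have hvn : ∀ n : ℕ, Measurable (fun x => v x n) := fun n => (measurable_pi_apply n).comp hv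
  have hpre : ∀ n : ℕ, Measurable (fun x => pre M n (v x)) := by
    intro n
    refine measurable_pi_lambda _ (fun k => ?_)
    unfold pre
    by_cases h : k.val < n
    · simp only [h, if_true]; exact hvn _
    · simp only [h, if_false]; exact measurable_const
  have hstep : ∀ N ≤ M, shannonEntropy μ (fun x => pre M N (v x)) ≤
      ∑ n ∈ Finset.range N, (l + l⁻¹ * CV μ (fun x => pre M n (v x)) (fun x => v x n)) := by
    intro N
    induction N with
    | zero =>
      intro _
      have : (fun x => pre M 0 (v x)) = fun _ => (fun _ => false) := by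
        funext x k; simp [pre]
      rw [this, H_const (α := Fin M → Bool)]
      simp
    | succ N ih =>
      intro hN
      rw [Finset.sum_range_succ]
      have h1 := ih (by omega)
      have h2 := H_step μ (hpre N) (hvn N) hl
      have h3 := H_comp_le μ ((hpre N).prodMk (hvn N))
        (fun (w : (Fin M → Bool) × Bool) => (fun k : Fin M => if k.val = N then w.2 else w.1 k))
      have h4 : (fun x => fun k : Fin M => if k.val = N then v x N else pre M N (v x) k) =
          fun x => pre M (N + 1) (v x) := by
        funext x k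
        simp only [pre]
        by_cases hk : k.val = N
        · rw [if_pos hk, if_pos (by omega), hk]
        · rw [if_neg hk]
          by_cases hk2 : k.val < N
          · rw [if_pos hk2, if_pos (by omega)]
          · rw [if_neg hk2, if_neg (by omega)]
      simp only at h3
      rw [h4] at h3
      linarith
  have := hstep M le_rfl
  have h5 : (fun x => pre M M (v x)) = fun x => fun n : Fin M => v x n := by
    funext x k
    simp [pre]
  rwa [h5] at this

end unif

section types

variable {W : Type*} [Fintype W] [DecidableEq W] [MeasurableSpace W] [MeasurableSingletonClass W]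

/-- the coding probability built from the types -/
noncomputable def qq (K : ℕ) (v : Fin K → W) : ℝ :=
  (((K + 1 : ℕ) : ℝ) ^ (Fintype.card W))⁻¹ *
    ∑ m : W → Fin (K + 1), if ∑ w, (m w).val = K then ∏ i, (((m (v i)).val : ℝ) / K) else 0

lemma qq_nonneg (K : ℕ) (v : Fin K → W) : 0 ≤ qq K v := by
  unfold qq
  refine mul_nonneg (by positivity) (Finset.sum_nonneg (fun m _ => ?_))
  split_ifs
  · exact Finset.prod_nonneg (fun i _ => by positivity)
  · exact le_rfl

lemma qq_sum (K : ℕ) [NeZero K] : ∑ v : Fin K → W, qq K v ≤ 1 := by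
  unfold qq
  rw [← Finset.mul_sum, Finset.sum_comm]
  have hK : (K : ℝ) ≠ 0 := by exact_mod_cast NeZero.ne K
  have h1 : ∀ m : W → Fin (K + 1), ∑ v : Fin K → W, (if ∑ w, (m w).val = K then
      ∏ i, (((m (v i)).val : ℝ) / K) else 0) ≤ 1 := by
    intro m
    split_ifs with h
    · rw [← Fintype.sum_pow (fun w => ((m w).val : ℝ) / K) K, ← Finset.sum_div]
      have : (∑ w, ((m w).val : ℝ)) = K := by exact_mod_cast h
      rw [this, div_self hK, one_pow]
    · simp
  have h2 := Finset.sum_le_sum (s := Finset.univ) (fun m _ => h1 m)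
  have h3 : ∑ m : W → Fin (K + 1), (1 : ℝ) = ((K + 1 : ℕ) : ℝ) ^ (Fintype.card W) := by
    simp
  rw [h3] at h2
  rw [inv_mul_le_iff₀ (by positivity), mul_one]
  exact h2

lemma log_qq (K : ℕ) [NeZero K] (v : Fin K → W) :
    0 < qq K v ∧ -Real.log (qq K v) ≤ Fintype.card W * Real.log (K + 1) +
      K * shannonEntropy (u K) v := by
  have hK : (K : ℝ) ≠ 0 := by exact_mod_cast NeZero.ne K
  have hKpos : (0 : ℝ) < K := by positivity
  -- the type of v
  set cnt : W → ℕ := fun w => (Finset.univ.filter (fun i => v i = w)).card with hcnt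
  have hcntle : ∀ w, cnt w < K + 1 := by
    intro w
    have := Finset.card_filter_le (Finset.univ : Finset (Fin K)) (fun i => v i = w)
    simp only [Finset.card_univ, Fintype.card_fin] at this
    simp only [hcnt]
    omega
  have hcntsum : ∑ w, cnt w = K := by
    have := Finset.card_eq_sum_card_fiberwise (s := (Finset.univ : Finset (Fin K)))
      (t := (Finset.univ : Finset W)) (f := v) (fun _ _ => Finset.mem_coe.2 (Finset.mem_univ _))
    simp only [Finset.card_univ, Fintype.card_fin] at this
    exact this.symm
  set P : ℝ := ∏ i, ((cnt (v i) : ℝ) / K) with hP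
  have hPpos : 0 < P := by
    refine Finset.prod_pos (fun i _ => ?_)
    have : 0 < cnt (v i) := Finset.card_pos.2 ⟨i, by simp⟩
    positivity
  have hge : (((K + 1 : ℕ) : ℝ) ^ (Fintype.card W))⁻¹ * P ≤ qq K v := by
    unfold qq
    refine mul_le_mul_of_nonneg_left ?_ (by positivity)
    have h1 := Finset.single_le_sum (s := (Finset.univ : Finset (W → Fin (K + 1))))
      (f := fun m => if ∑ w, (m w).val = K then ∏ i, (((m (v i)).val : ℝ) / K) else 0)
      (fun m _ => by
        split_ifs
        · exact Finset.prod_nonneg (fun i _ => by positivity)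
        · exact le_rfl)
      (Finset.mem_univ (fun w => (⟨cnt w, hcntle w⟩ : Fin (K + 1))))
    simp only [hcntsum, if_true] at h1
    exact h1
  have hCpos : (0 : ℝ) < (((K + 1 : ℕ) : ℝ) ^ (Fintype.card W))⁻¹ := by positivity
  have hpos : 0 < qq K v := (mul_pos hCpos hPpos).trans_le hge
  refine ⟨hpos, ?_⟩
  have hlog := Real.log_le_log (mul_pos hCpos hPpos) hge
  rw [Real.log_mul hCpos.ne' hPpos.ne', Real.log_inv, Real.log_pow] at hlog
  have hlogP : -Real.log P = K * shannonEntropy (u K) v := by
    rw [hP, Real.log_prod (fun i _ => by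
      have : 0 < cnt (v i) := Finset.card_pos.2 ⟨i, by simp⟩
      positivity)]
    unfold shannonEntropy
    rw [Finset.mul_sum, ← Finset.sum_neg_distrib]
    rw [← Finset.sum_fiberwise (s := Finset.univ) (g := v)]
    refine Finset.sum_congr rfl (fun w _ => ?_)
    have h1 : ∀ i ∈ Finset.univ.filter (fun i => v i = w), -Real.log ((cnt (v i) : ℝ) / K) =
        -Real.log ((cnt w : ℝ) / K) := by
      intro i hi
      rw [(Finset.mem_filter.1 hi).2]
    have h2 : v ⁻¹' {w} = {i | v i = w} := by
      ext i; simp
    rw [Finset.sum_congr rfl h1, Finset.sum_const, nsmul_eq_mul, h2, u_real]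
    change (cnt w : ℝ) * _ = K * Real.negMulLog ((cnt w : ℝ) / K)
    unfold Real.negMulLog
    field_simp
  push_cast at hlog
  linarith

end types

end Pool.Agent.H98R3.SN
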