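import Pool.Agent.H98R3.SN.N3

/-! The total conditional variance of the blocks of a sequence; lower bound of its mean. -/

set_option autoImplicit false

open MeasureTheory Filter Topology
open Pool.Agent.Helper179.KS

namespace Pool.Agent.H98R3.SN

/-- the `i`-th block of length `M` (and everything after it) -/
def blk (M : ℕ) (y : ℕ → Bool) (i : ℕ) : ℕ → Bool := fun n => y (i * M + n)

/-- total conditional variance of the first `K` blocks of length `M` of `y` -/
noncomputable def GG (M K : ℕ) (y : ℕ → Bool) : ℝ :=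
  ∑ n ∈ Finset.range M, CVc (fun i : Fin K => pre M n (blk M y i)) (fun i => blk M y i n)

lemma GG_congr {M K : ℕ} {y y' : ℕ → Bool} (h : ∀ k < K * M, y k = y' k) :
    GG M K y = GG M K y' := by
  unfold GG
  refine Finset.sum_congr rfl (fun n hn => ?_)
  have hn' := Finset.mem_range.1 hn
  have hb : ∀ (i : Fin K) (n : ℕ), n < M → blk M y i n = blk M y' i n := by
    intro i n hn
    apply h
    have h1 : (i : ℕ) + 1 ≤ K := i.isLt
    calc (i : ℕ) * M + n < (i : ℕ) * M + M := by omega
      _ = ((i : ℕ) + 1) * M := by ring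
      _ ≤ K * M := Nat.mul_le_mul_right M h1
  have h1 : (fun i : Fin K => pre M n (blk M y i)) = fun i : Fin K => pre M n (blk M y' i) := by
    funext i k
    simp only [pre]
    split_ifs with hk
    · exact hb i k (by omega)
    · rfl
  have h2 : (fun i : Fin K => blk M y i n) = fun i : Fin K => blk M y' i n := by
    funext i
    exact hb i n hn'
  rw [h1, h2]

lemma CVc_nonneg {α : Type*} [Fintype α] [DecidableEq α] {K : ℕ} (cl : Fin K → α)
    (b : Fin K → Bool) : 0 ≤ CVc cl b :=
  Finset.sum_nonneg (fun _ _ => phi_nonneg (by positivity) (by positivity))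

lemma CVc_le {α : Type*} [Fintype α] [DecidableEq α] {K : ℕ} (cl : Fin K → α)
    (b : Fin K → Bool) : CVc cl b ≤ K := by
  unfold CVc
  have h1 : ∀ a, phi (cc cl b a true) (cc cl b a false) ≤ cc cl b a true := by
    intro a
    have := phi_le (s := (cc cl b a true : ℝ)) (t := (cc cl b a false : ℝ)) (by positivity)
      (by positivity) 0
    simpa using this
  refine (Finset.sum_le_sum (fun a _ => h1 a)).trans ?_
  have h2 : ∑ a, cc cl b a true = (Finset.univ.filter (fun i => b i = true)).card := by
    unfold cc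
    rw [Finset.card_eq_sum_card_fiberwise (s := Finset.univ.filter (fun i => b i = true))
      (t := (Finset.univ : Finset α)) (f := cl) (fun _ _ => Finset.mem_coe.2 (Finset.mem_univ _))]
    refine Finset.sum_congr rfl (fun a _ => ?_)
    congr 1
    ext i
    simp [and_comm]
  have h3 : (∑ a, (cc cl b a true : ℝ)) =
      ((Finset.univ.filter (fun i => b i = true)).card : ℝ) := by exact_mod_cast h2
  rw [h3]
  have := Finset.card_filter_le (Finset.univ : Finset (Fin K)) (fun i => b i = true)
  simp only [Finset.card_univ, Fintype.card_fin] at this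
  exact_mod_cast this

lemma GG_nonneg (M K : ℕ) (y : ℕ → Bool) : 0 ≤ GG M K y :=
  Finset.sum_nonneg (fun _ _ => CVc_nonneg _ _)

lemma GG_le (M K : ℕ) (y : ℕ → Bool) : GG M K y ≤ M * K := by
  unfold GG
  refine (Finset.sum_le_card_nsmul _ _ (K : ℝ) (fun n _ => CVc_le _ _)).trans ?_
  simp

/-- functions of finitely many coordinates -/
lemma fd_factor {L : ℕ} {G : (ℕ → Bool) → ℝ} (h : ∀ y y' : ℕ → Bool, (∀ k < L, y k = y' k) →
    G y = G y') : G = (fun w : Fin L → Bool => G (fun k => if hk : k < L then w ⟨k, hk⟩ else false)) ∘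
      (fun (y : ℕ → Bool) (k : Fin L) => y k) := by
  funext y
  simp only [Function.comp]
  apply h
  intro k hk
  simp [hk]

lemma fd_continuous {L : ℕ} {G : (ℕ → Bool) → ℝ} (h : ∀ y y' : ℕ → Bool,
    (∀ k < L, y k = y' k) → G y = G y') : Continuous G := by
  rw [fd_factor h]
  exact (continuous_of_discreteTopology).comp (by fun_prop)

lemma fd_integrable {L : ℕ} {G : (ℕ → Bool) → ℝ} (h : ∀ y y' : ℕ → Bool,
    (∀ k < L, y k = y' k) → G y = G y') (ν : Measure (ℕ → Bool)) [IsProbabilityMeasure ν] :
    Integrable G ν := by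
  rw [fd_factor h]
  have hm : Measurable (fun (y : ℕ → Bool) (k : Fin L) => y k) :=
    measurable_pi_lambda _ (fun k => measurable_pi_apply _)
  have : IsProbabilityMeasure (ν.map (fun (y : ℕ → Bool) (k : Fin L) => y k)) :=
    Measure.isProbabilityMeasure_map hm.aemeasurable
  exact (Integrable.of_finite (μ := ν.map _)).comp_measurable hm

lemma small_log (A ε : ℝ) (hε : 0 < ε) : ∃ K₀ : ℕ, ∀ K : ℕ, K₀ ≤ K →
    A * Real.log (K + 1) ≤ ε * K := by
  have h1 := Real.isLittleO_log_id_atTop
  set δ := ε / (2 * (|A| + 1)) with hδ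
  have hδpos : 0 < δ := by positivity
  have h2 := (h1.bound hδpos)
  have h3 : Tendsto (fun K : ℕ => (K : ℝ) + 1) atTop atTop :=
    tendsto_atTop_add_const_right _ _ tendsto_natCast_atTop_atTop
  obtain ⟨K₀, hK₀⟩ := eventually_atTop.1 (h3.eventually h2)
  refine ⟨max K₀ 1, fun K hK => ?_⟩
  have h4 := hK₀ K ((le_max_left _ _).trans hK)
  have hK1 : (1 : ℝ) ≤ K := by exact_mod_cast (le_max_right _ _).trans hK
  simp only [id, Real.norm_eq_abs] at h4
  have h5 : Real.log ((K : ℝ) + 1) ≤ δ * (K + 1) := by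
    have := le_abs_self (Real.log ((K : ℝ) + 1))
    rw [abs_of_nonneg (by positivity : (0 : ℝ) ≤ (K : ℝ) + 1)] at h4
    linarith
  have h6 : 0 ≤ Real.log ((K : ℝ) + 1) := Real.log_nonneg (by linarith)
  calc A * Real.log (K + 1) ≤ |A| * Real.log (K + 1) :=
        mul_le_mul_of_nonneg_right (le_abs_self A) h6
    _ ≤ |A| * (δ * (K + 1)) := mul_le_mul_of_nonneg_left h5 (abs_nonneg A)
    _ ≤ (|A| + 1) * (δ * (2 * K)) := by
        apply mul_le_mul (by linarith [abs_nonneg A]) _ (by positivity) (by positivity)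
        apply mul_le_mul_of_nonneg_left _ hδpos.le
        linarith
    _ = ε * K := by
        rw [hδ]; field_simp

/-- the mean of `GG` is linear in the length of the superblock -/
lemma GG_lower (ν : Measure (ℕ → Bool)) [IsProbabilityMeasure ν] {c : ℝ} (hc : 0 < c) (a' : Bool)
    (h : ∀ L : ℕ, c * L ≤ shannonEntropy ν (itinerary shift (ind {y : ℕ → Bool | y 0 = a'}) L))
    (M : ℕ) (hM : 1 ≤ M) : ∃ K₀ : ℕ, ∀ K : ℕ, K₀ ≤ K → 1 ≤ K →
      c ^ 2 / 8 * (K * M) ≤ ∫ y, GG M K y ∂ν := by
  obtain ⟨K₀, hK₀⟩ := small_log (Fintype.card (Fin M → Bool)) (c / 4) (by positivity)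
  refine ⟨K₀, fun K hK hK1 => ?_⟩
  have : NeZero K := ⟨by omega⟩
  set l : ℝ := c / 4 with hl
  have hlpos : 0 < l := by positivity
  set P : (ℕ → Bool) → (Fin K → (Fin M → Bool)) := fun y i n => y (i * M + n) with hP
  have hPm : Measurable P :=
    measurable_pi_lambda _ (fun i => measurable_pi_lambda _ (fun n => measurable_pi_apply _))
  -- the itinerary is a function of the blocks
  have h1 : shannonEntropy ν (itinerary shift (ind {y : ℕ → Bool | y 0 = a'}) (K * M)) ≤
      shannonEntropy ν P := by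
    have hMpos : 0 < M := by omega
    have h2 := H_comp_le ν hPm (fun (q : Fin K → (Fin M → Bool)) (j : Fin (K * M)) =>
      decide (q ⟨j.val / M, (Nat.div_lt_iff_lt_mul hMpos).2 j.isLt⟩
        ⟨j.val % M, Nat.mod_lt _ hMpos⟩ = a'))
    have h3 : (fun y => fun (j : Fin (K * M)) =>
      decide (P y ⟨j.val / M, (Nat.div_lt_iff_lt_mul hMpos).2 j.isLt⟩
        ⟨j.val % M, Nat.mod_lt _ hMpos⟩ = a')) =
        itinerary shift (ind {y : ℕ → Bool | y 0 = a'}) (K * M) := by
      funext y j
      simp only [hP, itinerary, ind]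
      simp only [Set.mem_ofPred_eq, shift_iter]
      have e1 : j.val / M * M + j.val % M = j.val + 0 := by
        rw [mul_comm]; simpa using Nat.div_add_mod j.val M
      rw [decide_eq_decide, e1]
    rw [← h3]
    exact h2
  set F : (ℕ → Bool) → ℝ := fun y => (Fintype.card (Fin M → Bool) : ℝ) * Real.log (K + 1) +
    K * M * l + l⁻¹ * GG M K y with hF
  have hFint : Integrable F ν := by
    refine Integrable.add (integrable_const _) ?_
    exact (fd_integrable (L := K * M) (fun y y' hy => GG_congr hy) ν).const_mul _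
  have h4 := shannonEntropy_le_integral ν hPm (qq K) (qq_nonneg K) (qq_sum K) F hFint
    (Eventually.of_forall (fun y => by
      obtain ⟨g1, g2⟩ := log_qq K (P y)
      refine ⟨g1, g2.trans ?_⟩
      have hv : Measurable (fun i : Fin K => blk M y i) := measurable_of_finite _
      have g3 := H_word_le (u K) (fun i : Fin K => blk M y i) hv hlpos M
      have g4 : (fun i : Fin K => fun n : Fin M => blk M y i n) = P y := by
        funext i n; rfl
      rw [g4] at g3
      have g5 : (K : ℝ) * ∑ n ∈ Finset.range M, (l + l⁻¹ *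
          CV (u K) (fun i : Fin K => pre M n (blk M y i)) (fun i => blk M y i n)) =
          K * M * l + l⁻¹ * GG M K y := by
        unfold GG
        rw [Finset.sum_add_distrib, Finset.sum_const, Finset.card_range, nsmul_eq_mul, mul_add,
          ← Finset.mul_sum]
        simp only [CV_u]
        rw [← Finset.sum_div]
        have hKne : (K : ℝ) ≠ 0 := by exact_mod_cast NeZero.ne K
        field_simp
      have g6 := mul_le_mul_of_nonneg_left g3 (by positivity : (0 : ℝ) ≤ (K : ℝ))
      rw [g5] at g6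
      simp only [hF]
      linarith))
  have h5 : ∫ y, F y ∂ν = (Fintype.card (Fin M → Bool) : ℝ) * Real.log (K + 1) +
      K * M * l + l⁻¹ * ∫ y, GG M K y ∂ν := by
    simp only [hF]
    rw [integral_add (integrable_const _)
      ((fd_integrable (L := K * M) (fun y y' hy => GG_congr hy) ν).const_mul _),
      integral_const_mul, integral_const]
    simp
  rw [h5] at h4
  have h6 := h (K * M)
  have h7 := hK₀ K hK
  have hM1 : (1 : ℝ) ≤ M := by exact_mod_cast hM
  push_cast at h6
  have h8 : l * (K : ℝ) ≤ l * (K * M) := by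
    apply mul_le_mul_of_nonneg_left _ hlpos.le
    nlinarith [(by positivity : (0 : ℝ) ≤ (K : ℝ))]
  have h81 : c * ((K : ℝ) * M) = 4 * (l * (K * M)) := by rw [hl]; ring
  have h82 : c / 2 * ((K : ℝ) * M) = 2 * (l * (K * M)) := by rw [hl]; ring
  have h9 : c / 2 * (K * M) ≤ l⁻¹ * ∫ y, GG M K y ∂ν := by
    rw [h82]
    rw [h81] at h6
    linarith
  have h10 := mul_le_mul_of_nonneg_left h9 hlpos.le
  rw [mul_inv_cancel_left₀ hlpos.ne'] at h10
  calc c ^ 2 / 8 * (K * M) = l * (c / 2 * (K * M)) := by rw [hl]; ring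
    _ ≤ _ := h10

end Pool.Agent.H98R3.SN
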