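import Pool.Agent.H98R3.SN.N4

/-! The assignment lemma. -/

set_option autoImplicit false

open Finset

namespace Pool.Agent.H98R3.SN

section cen

variable {ι C : Type*} [Fintype ι] [Fintype C] [DecidableEq C]

/-- centering of `b` on the classes of `cl` -/
noncomputable def cen (cl : ι → C) (b : ι → ℝ) (i : ι) : ℝ :=
  b i - (∑ i' with cl i' = cl i, b i') / ((univ.filter (fun i' => cl i' = cl i)).card : ℝ)

omit [Fintype C] in
lemma cen_congr (cl : ι → C) (b : ι → ℝ) {i i' : ι} (h : cl i = cl i') (hb : b i = b i') :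
    cen cl b i = cen cl b i' := by
  unfold cen; rw [h, hb]

lemma sum_mul_cen (cl : ι → C) (b φ : ι → ℝ) (hφ : ∀ i i', cl i = cl i' → φ i = φ i') :
    ∑ i, φ i * cen cl b i = 0 := by
  rw [← sum_fiberwise (g := cl)]
  refine sum_eq_zero (fun c _ => ?_)
  rcases (univ.filter (fun i => cl i = c)).eq_empty_or_nonempty with he | ⟨i₀, hi₀⟩
  · rw [he]; simp
  · have hc : cl i₀ = c := (mem_filter.1 hi₀).2
    have h1 : ∀ i ∈ univ.filter (fun i => cl i = c), φ i * cen cl b i =
        φ i₀ * (b i - (∑ i' with cl i' = c, b i') /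
          ((univ.filter (fun i' => cl i' = c)).card : ℝ)) := by
      intro i hi
      have hi' : cl i = c := (mem_filter.1 hi).2
      unfold cen
      rw [hi', hφ i i₀ (by rw [hi', hc])]
    rw [sum_congr rfl h1, ← mul_sum, sum_sub_distrib, sum_const, nsmul_eq_mul]
    have hne : ((univ.filter (fun i => cl i = c)).card : ℝ) ≠ 0 := by
      have : 0 < (univ.filter (fun i => cl i = c)).card := card_pos.2 ⟨i₀, hi₀⟩
      exact_mod_cast this.ne'
    rw [mul_div_cancel₀ _ hne, sub_self, mul_zero]

lemma sum_b_cen (cl : ι → C) (b : ι → ℝ) :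
    ∑ i, b i * cen cl b i = ∑ i, cen cl b i ^ 2 := by
  have h := sum_mul_cen cl b (fun i => b i - cen cl b i) (by
    intro i i' h
    simp only [cen, sub_sub_cancel]
    rw [h])
  have h2 : ∑ i, (b i - cen cl b i) * cen cl b i =
      ∑ i, b i * cen cl b i - ∑ i, cen cl b i ^ 2 := by
    rw [← sum_sub_distrib]
    refine sum_congr rfl (fun i _ => by ring)
  rw [h2] at h
  linarith

omit [Fintype C] in
lemma abs_cen_le (cl : ι → C) (b : ι → ℝ) (hb0 : ∀ i, 0 ≤ b i) (hb1 : ∀ i, b i ≤ 1) (i : ι) :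
    |cen cl b i| ≤ 1 := by
  unfold cen
  have hpos : 0 < (univ.filter (fun i' => cl i' = cl i)).card := card_pos.2 ⟨i, by simp⟩
  have h1 : 0 ≤ (∑ i' with cl i' = cl i, b i') /
      ((univ.filter (fun i' => cl i' = cl i)).card : ℝ) :=
    div_nonneg (sum_nonneg (fun i _ => hb0 i)) (by positivity)
  have h2 : (∑ i' with cl i' = cl i, b i') /
      ((univ.filter (fun i' => cl i' = cl i)).card : ℝ) ≤ 1 := by
    rw [div_le_one (by exact_mod_cast hpos)]
    refine (sum_le_card_nsmul _ _ 1 (fun i _ => hb1 i)).trans ?_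
    simp
  rw [abs_le]
  constructor <;> linarith [hb0 i, hb1 i]

end cen

section bits

variable {C : Type*} [Fintype C] [DecidableEq C]

/-- a bit as a real number -/
def r (b : Bool) : ℝ := if b then 1 else 0

lemma r_nonneg (b : Bool) : 0 ≤ r b := by unfold r; split_ifs <;> norm_num
lemma r_le_one (b : Bool) : r b ≤ 1 := by unfold r; split_ifs <;> norm_num

lemma sum_cen_sq {K : ℕ} (cl : Fin K → C) (b : Fin K → Bool) :
    ∑ i, cen cl (fun i => r (b i)) i ^ 2 = CVc cl b := by
  unfold CVc
  rw [← sum_fiberwise (g := cl)]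
  refine sum_congr rfl (fun c _ => ?_)
  set s : ℝ := (cc cl b c true : ℝ) with hs
  set t : ℝ := (cc cl b c false : ℝ) with ht
  have hsum : (∑ i' with cl i' = c, r (b i')) = s := by
    rw [hs]
    unfold r cc
    rw [sum_ite, sum_const_zero, add_zero, sum_const, nsmul_eq_mul, mul_one]
    congr 2
    ext i
    simp
  have hcard : ((univ.filter (fun i' => cl i' = c)).card : ℝ) = s + t := by
    rw [hs, ht]
    unfold cc
    have : (univ.filter (fun i' => cl i' = c)).card =
      (univ.filter (fun i => cl i = c ∧ b i = true)).card +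
      (univ.filter (fun i => cl i = c ∧ b i = false)).card := by
      rw [← card_filter_add_card_filter_not (s := univ.filter (fun i' => cl i' = c))
        (fun i => b i = true)]
      congr 1
      · congr 1; ext i; simp
      · congr 1; ext i; simp
    exact_mod_cast this
  have h1 : ∀ i ∈ univ.filter (fun i => cl i = c), cen cl (fun i => r (b i)) i ^ 2 =
      if b i = true then (1 - s / (s + t)) ^ 2 else (s / (s + t)) ^ 2 := by
    intro i hi
    have hi' : cl i = c := (mem_filter.1 hi).2
    unfold cen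
    rw [hi', hsum, hcard]
    by_cases hb : b i = true
    · simp [r, hb]
    · simp [r, hb]
  rw [sum_congr rfl h1, sum_ite, sum_const, sum_const, nsmul_eq_mul, nsmul_eq_mul,
    phi_eq (by rw [hs]; positivity) (by rw [ht]; positivity)]
  have e1 : (((univ.filter (fun i => cl i = c)).filter (fun i => b i = true)).card : ℝ) = s := by
    rw [hs]; unfold cc
    congr 2
    ext i; simp
  have e2 : (((univ.filter (fun i => cl i = c)).filter (fun i => ¬ b i = true)).card : ℝ) = t := by
    rw [ht]; unfold cc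
    congr 2
    ext i; simp
  rw [e1, e2]
  ring

end bits

section words

variable {K : ℕ} (M : ℕ) (v w : Fin K → ℕ → Bool)

/-- forward centered bits -/
noncomputable def Bc (n : ℕ) (i : Fin K) : ℝ :=
  cen (fun i => pre M n (v i)) (fun i => r (v i n)) i

/-- backward centered bits -/
noncomputable def Ac (n : ℕ) (j : Fin K) : ℝ :=
  cen (fun j => suf M (n + 1) (w j)) (fun j => r (w j n)) j

lemma pre_succ {M n : ℕ} (hn : n < M) {x y : ℕ → Bool} (h : pre M (n + 1) x = pre M (n + 1) y) :
    pre M n x = pre M n y ∧ x n = y n := by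
  have hk : ∀ k : Fin M, k.val < n + 1 → x k = y k := by
    intro k hk
    have := congrFun h k
    simpa [pre, hk] using this
  constructor
  · funext k
    simp only [pre]
    split_ifs with h1
    · exact hk k (by omega)
    · rfl
  · exact hk ⟨n, hn⟩ (by simp)

lemma suf_of_suf {M n m : ℕ} (hnm : n ≤ m) {x y : ℕ → Bool} (h : suf M n x = suf M n y) :
    suf M m x = suf M m y ∧ (m < M → x m = y m) := by
  have hk : ∀ k : Fin M, n ≤ k.val → x k = y k := by
    intro k hk
    have := congrFun h k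
    simpa [suf, hk] using this
  constructor
  · funext k
    simp only [suf]
    split_ifs with h1
    · exact hk k (by omega)
    · rfl
  · intro hm
    exact hk ⟨m, hm⟩ hnm

lemma claimY (d : ℕ) : ∀ n, n + d = M → ∀ φ : Fin K → ℝ,
    (∀ i i', pre M n (v i) = pre M n (v i') → φ i = φ i') → ∀ a : ℕ → ℝ,
    ∑ i, φ i * ∏ k ∈ Ico n M, (1 + a k * Bc M v k i) = ∑ i, φ i := by
  induction d with
  | zero =>
    intro n hn φ _ a
    have : n = M := by omega
    subst this
    simp
  | succ d ih =>
    intro n hn φ hφ a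
    have hnM : n < M := by omega
    have h1 := ih (n + 1) (by omega) (fun i => φ i * (1 + a n * Bc M v n i)) (by
      intro i i' h
      obtain ⟨h2, h3⟩ := pre_succ hnM h
      have h4 : Bc M v n i = Bc M v n i' := cen_congr _ _ h2 (by simp only [h3])
      rw [hφ i i' h2, h4]) a
    have h2 : ∀ i, φ i * ∏ k ∈ Ico n M, (1 + a k * Bc M v k i) =
        φ i * (1 + a n * Bc M v n i) * ∏ k ∈ Ico (n + 1) M, (1 + a k * Bc M v k i) := by
      intro i
      rw [prod_eq_prod_Ico_succ_bot hnM]
      ring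
    rw [sum_congr rfl (fun i _ => h2 i), h1]
    have h3 : ∑ i, φ i * Bc M v n i = 0 := sum_mul_cen _ _ φ hφ
    have h4 : ∑ i, φ i * (1 + a n * Bc M v n i) = ∑ i, φ i + a n * ∑ i, φ i * Bc M v n i := by
      rw [mul_sum, ← sum_add_distrib]
      exact sum_congr rfl (fun i _ => by ring)
    rw [h4, h3]
    ring

lemma claimX (n : ℕ) : n ≤ M → ∀ φ : Fin K → ℝ,
    (∀ j j', suf M n (w j) = suf M n (w j') → φ j = φ j') → ∀ b : ℕ → ℝ,
    ∑ j, φ j * ∏ k ∈ range n, (1 + Ac M w k j * b k) = ∑ j, φ j := by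
  induction n with
  | zero =>
    intro _ φ _ b
    simp
  | succ n ih =>
    intro hn φ hφ b
    have hnM : n < M := by omega
    have h1 := ih (by omega) (fun j => φ j * (1 + Ac M w n j * b n)) (by
      intro j j' h
      obtain ⟨h2, -⟩ := suf_of_suf (Nat.le_succ n) h
      obtain ⟨-, h3⟩ := suf_of_suf (le_refl n) h
      have h4 : Ac M w n j = Ac M w n j' := cen_congr _ _ h2 (by simp only [h3 hnM])
      rw [hφ j j' h2, h4]) b
    have h2 : ∀ j, φ j * ∏ k ∈ range (n + 1), (1 + Ac M w k j * b k) =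
        φ j * (1 + Ac M w n j * b n) * ∏ k ∈ range n, (1 + Ac M w k j * b k) := by
      intro j
      rw [prod_range_succ]
      ring
    rw [sum_congr rfl (fun j _ => h2 j), h1]
    have h3 : ∑ j, φ j * Ac M w n j = 0 := sum_mul_cen _ _ φ hφ
    have h4 : ∑ j, φ j * (1 + Ac M w n j * b n) = ∑ j, φ j + b n * ∑ j, φ j * Ac M w n j := by
      rw [mul_sum, ← sum_add_distrib]
      exact sum_congr rfl (fun j _ => by ring)
    rw [h4, h3]
    ring

/-- the unnormalised coupling matrix -/
noncomputable def DD (i j : Fin K) : ℝ := ∏ k ∈ range M, (1 + Ac M w k j * Bc M v k i)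

lemma DD_nonneg (i j : Fin K) : 0 ≤ DD M v w i j := by
  refine prod_nonneg (fun k _ => ?_)
  have h1 : |Ac M w k j| ≤ 1 := abs_cen_le _ _ (fun _ => r_nonneg _) (fun _ => r_le_one _) j
  have h2 : |Bc M v k i| ≤ 1 := abs_cen_le _ _ (fun _ => r_nonneg _) (fun _ => r_le_one _) i
  have h3 : |Ac M w k j * Bc M v k i| ≤ 1 := by
    rw [abs_mul]
    exact mul_le_one₀ h1 (abs_nonneg _) h2
  linarith [(abs_le.1 h3).1]

lemma DD_row (i : Fin K) : ∑ j, DD M v w i j = K := by
  have h := claimX M w M le_rfl (fun _ => 1) (fun _ _ _ => rfl) (fun k => Bc M v k i)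
  unfold DD
  simpa using h

lemma DD_col (j : Fin K) : ∑ i, DD M v w i j = K := by
  have h := claimY M v M 0 (by omega) (fun _ => 1) (fun _ _ _ => rfl) (fun k => Ac M w k j)
  unfold DD
  simpa [Nat.Ico_zero_eq_range] using h

lemma DD_corr (k : ℕ) (hk : k < M) :
    ∑ i, ∑ j, r (v i k) * r (w j k) * DD M v w i j =
      (∑ j, r (w j k)) * (∑ i, r (v i k)) +
        CVc (fun j => suf M (k + 1) (w j)) (fun j => w j k) *
        CVc (fun i => pre M k (v i)) (fun i => v i k) := by
  have h1 : ∀ i, ∑ j, r (v i k) * r (w j k) * DD M v w i j =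
      ∑ j, r (v i k) * (r (w j k) * ∏ n ∈ Ico k M, (1 + Ac M w n j * Bc M v n i)) := by
    intro i
    have h2 := claimX M w k hk.le
      (fun j => r (w j k) * ∏ n ∈ Ico k M, (1 + Ac M w n j * Bc M v n i)) (by
        intro j j' h
        have h3 : w j k = w j' k := (suf_of_suf (le_refl k) h).2 hk
        have h4 : ∀ n ∈ Ico k M, (1 + Ac M w n j * Bc M v n i) =
            (1 + Ac M w n j' * Bc M v n i) := by
          intro n hn
          obtain ⟨hn1, hn2⟩ := mem_Ico.1 hn
          have h5 := (suf_of_suf (show k ≤ n + 1 by omega) h).1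
          have h6 := (suf_of_suf hn1 h).2 hn2
          have h7 : Ac M w n j = Ac M w n j' := cen_congr _ _ h5 (by simp only [h6])
          rw [h7]
        rw [h3, prod_congr rfl h4]) (fun n => Bc M v n i)
    rw [← mul_sum, ← h2, mul_sum]
    refine sum_congr rfl (fun j _ => ?_)
    unfold DD
    rw [← prod_range_mul_prod_Ico _ hk.le]
    ring
  rw [sum_congr rfl (fun i _ => h1 i), sum_comm]
  have h2 : ∀ j, ∑ i, r (v i k) * (r (w j k) * ∏ n ∈ Ico k M, (1 + Ac M w n j * Bc M v n i)) =
      r (w j k) * (∑ i, r (v i k) + Ac M w k j * ∑ i, r (v i k) * Bc M v k i) := by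
    intro j
    have h3 := claimY M v (M - (k + 1)) (k + 1) (by omega)
      (fun i => r (v i k) * (1 + Ac M w k j * Bc M v k i)) (by
        intro i i' h
        obtain ⟨h4, h5⟩ := pre_succ hk h
        have h6 : Bc M v k i = Bc M v k i' := cen_congr _ _ h4 (by simp only [h5])
        rw [h5, h6]) (fun n => Ac M w n j)
    have h4 : ∑ i, r (v i k) * (r (w j k) * ∏ n ∈ Ico k M, (1 + Ac M w n j * Bc M v n i)) =
        r (w j k) * ∑ i, r (v i k) * (1 + Ac M w k j * Bc M v k i) *
          ∏ n ∈ Ico (k + 1) M, (1 + Ac M w n j * Bc M v n i) := by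
      rw [mul_sum]
      refine sum_congr rfl (fun i _ => ?_)
      rw [prod_eq_prod_Ico_succ_bot hk]
      ring
    rw [h4, h3]
    congr 1
    rw [mul_sum, ← sum_add_distrib]
    exact sum_congr rfl (fun i _ => by ring)
  rw [sum_congr rfl (fun j _ => h2 j)]
  have e1 : ∑ i, r (v i k) * Bc M v k i = CVc (fun i => pre M k (v i)) (fun i => v i k) := by
    rw [← sum_cen_sq]
    exact sum_b_cen _ _
  have e2 : ∑ j, r (w j k) * Ac M w k j = CVc (fun j => suf M (k + 1) (w j)) (fun j => w j k) := by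
    rw [← sum_cen_sq]
    exact sum_b_cen _ _
  rw [e1, ← e2, sum_mul, sum_mul, ← sum_add_distrib]
  exact sum_congr rfl (fun j _ => by ring)

/-- **assignment lemma** -/
lemma exists_perm (hK : 0 < K) : ∃ π : Equiv.Perm (Fin K),
    (1 / (K : ℝ)) * ∑ k ∈ range M, ((∑ j, r (w j k)) * (∑ i, r (v i k)) +
        CVc (fun j => suf M (k + 1) (w j)) (fun j => w j k) *
        CVc (fun i => pre M k (v i)) (fun i => v i k)) ≤
      ∑ i, ∑ k ∈ range M, r (v i k) * r (w (π i) k) := by
  have hK' : (0 : ℝ) < K := by exact_mod_cast hK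
  set Mat : Matrix (Fin K) (Fin K) ℝ := fun i j => DD M v w i j / K with hMat
  have hmem : Mat ∈ doublyStochastic ℝ (Fin K) := by
    rw [mem_doublyStochastic_iff_sum]
    refine ⟨fun i j => div_nonneg (DD_nonneg M v w i j) hK'.le, fun i => ?_, fun j => ?_⟩
    · simp only [hMat]
      rw [← sum_div, DD_row, div_self hK'.ne']
    · simp only [hMat]
      rw [← sum_div, DD_col, div_self hK'.ne']
  obtain ⟨g, hg0, hg1, hg⟩ := exists_eq_sum_perm_of_mem_doublyStochastic hmem
  set cost : Fin K → Fin K → ℝ := fun i j => ∑ k ∈ range M, r (v i k) * r (w j k) with hcost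
  have h1 : ∑ i, ∑ j, cost i j * Mat i j = (1 / (K : ℝ)) * ∑ k ∈ range M,
      ((∑ j, r (w j k)) * (∑ i, r (v i k)) +
        CVc (fun j => suf M (k + 1) (w j)) (fun j => w j k) *
        CVc (fun i => pre M k (v i)) (fun i => v i k)) := by
    have h2 : ∀ k ∈ range M, ((∑ j, r (w j k)) * (∑ i, r (v i k)) +
        CVc (fun j => suf M (k + 1) (w j)) (fun j => w j k) *
        CVc (fun i => pre M k (v i)) (fun i => v i k)) =
        ∑ i, ∑ j, r (v i k) * r (w j k) * DD M v w i j := by
      intro k hk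
      rw [DD_corr M v w k (mem_range.1 hk)]
    rw [sum_congr rfl h2]
    calc ∑ i, ∑ j, cost i j * Mat i j
        = ∑ i, ∑ j, ∑ k ∈ range M, (1 / (K : ℝ)) * (r (v i k) * r (w j k) * DD M v w i j) := by
          refine sum_congr rfl (fun i _ => sum_congr rfl (fun j _ => ?_))
          simp only [hcost, hMat]
          rw [sum_mul]
          refine sum_congr rfl (fun k _ => ?_)
          ring
      _ = ∑ i, ∑ k ∈ range M, ∑ j, (1 / (K : ℝ)) * (r (v i k) * r (w j k) * DD M v w i j) :=
          sum_congr rfl (fun i _ => sum_comm)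
      _ = ∑ k ∈ range M, ∑ i, ∑ j, (1 / (K : ℝ)) * (r (v i k) * r (w j k) * DD M v w i j) :=
          sum_comm
      _ = _ := by
          simp only [mul_sum]
  have h2 : ∑ i, ∑ j, cost i j * Mat i j = ∑ σ : Equiv.Perm (Fin K), g σ * ∑ i, cost i (σ i) := by
    calc ∑ i, ∑ j, cost i j * Mat i j
        = ∑ i, ∑ j, ∑ σ : Equiv.Perm (Fin K), g σ * (cost i j * (if σ i = j then 1 else 0)) := by
          refine sum_congr rfl (fun i _ => sum_congr rfl (fun j _ => ?_))
          have h3 : Mat i j = ∑ σ : Equiv.Perm (Fin K), g σ * (if σ i = j then 1 else 0) := by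
            rw [← hg, Matrix.sum_apply]
            refine sum_congr rfl (fun σ _ => ?_)
            rw [Matrix.smul_apply, smul_eq_mul]
            simp [Equiv.Perm.permMatrix, PEquiv.toMatrix_apply, Equiv.toPEquiv_apply, eq_comm]
          rw [h3, mul_sum]
          exact sum_congr rfl (fun σ _ => by ring)
      _ = ∑ i, ∑ σ : Equiv.Perm (Fin K), ∑ j, g σ * (cost i j * (if σ i = j then 1 else 0)) :=
          sum_congr rfl (fun i _ => sum_comm)
      _ = ∑ σ : Equiv.Perm (Fin K), ∑ i, ∑ j, g σ * (cost i j * (if σ i = j then 1 else 0)) :=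
          sum_comm
      _ = ∑ σ : Equiv.Perm (Fin K), g σ * ∑ i, cost i (σ i) := by
          refine sum_congr rfl (fun σ _ => ?_)
          rw [mul_sum]
          refine sum_congr rfl (fun i _ => ?_)
          rw [← mul_sum]
          simp
  rw [h2] at h1
  rw [← h1]
  by_contra hno
  push Not at hno
  obtain ⟨σ₀, hσ₀⟩ : ∃ σ, 0 < g σ := by
    by_contra hall
    push Not at hall
    have : ∑ σ, g σ ≤ 0 := sum_nonpos (fun σ _ => hall σ)
    linarith
  set m := ∑ σ : Equiv.Perm (Fin K), g σ * ∑ i, cost i (σ i) with hm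
  have h3 : m < m := by
    calc m = ∑ σ : Equiv.Perm (Fin K), g σ * ∑ i, cost i (σ i) := hm
      _ < ∑ σ : Equiv.Perm (Fin K), g σ * m := by
        apply sum_lt_sum
        · intro σ _
          exact mul_le_mul_of_nonneg_left (hno σ).le (hg0 σ)
        · exact ⟨σ₀, mem_univ _, mul_lt_mul_of_pos_left (hno σ₀) hσ₀⟩
      _ = m := by rw [← sum_mul, hg1, one_mul]
  exact lt_irrefl _ h3

end words

end Pool.Agent.H98R3.SN
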