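import Mathlib

/-! Sampling: a sequence of points with the right empirical frequencies. -/

set_option autoImplicit false

open MeasureTheory Filter Topology ProbabilityTheory

namespace Pool.Agent.H98R3.SN

lemma exists_sample {Ω : Type*} [MeasurableSpace Ω] (μ : Measure Ω) [IsProbabilityMeasure μ]
    {I : Type*} [Countable I] (E : I → Set Ω) (hE : ∀ i, MeasurableSet (E i)) :
    ∃ ω : ℕ → Ω, ∀ i, Tendsto (fun n : ℕ =>
      (∑ j ∈ Finset.range n, (E i).indicator (fun _ => (1 : ℝ)) (ω j)) / n) atTop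
      (𝓝 (μ.real (E i))) := by
  set P : Measure (ℕ → Ω) := Measure.infinitePi (fun _ : ℕ => μ) with hP
  have h : ∀ i, ∀ᵐ ω ∂P, Tendsto (fun n : ℕ =>
      (∑ j ∈ Finset.range n, (E i).indicator (fun _ => (1 : ℝ)) (ω j)) / n) atTop
      (𝓝 (μ.real (E i))) := by
    intro i
    set g : Ω → ℝ := (E i).indicator (fun _ => (1 : ℝ)) with hg
    have hm : Measurable g := measurable_const.indicator (hE i)
    have hind : iIndepFun (fun (j : ℕ) (ω : ℕ → Ω) => g (ω j)) P :=
      iIndepFun_infinitePi (P := fun _ : ℕ => μ) (X := fun _ => g) (fun _ => hm)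
    have hmp : ∀ j : ℕ, MeasurePreserving (fun ω : ℕ → Ω => ω j) P μ := fun j =>
      measurePreserving_eval_infinitePi (fun _ : ℕ => μ) j
    have hgi : Integrable g μ := (integrable_const (1 : ℝ)).indicator (hE i)
    have hint : Integrable (fun ω : ℕ → Ω => g (ω 0)) P := (hmp 0).integrable_comp_of_integrable hgi
    have hid : ∀ j : ℕ, IdentDistrib (fun ω : ℕ → Ω => g (ω j)) (fun ω : ℕ → Ω => g (ω 0)) P P := by
      intro j
      refine ⟨(hm.comp (hmp j).measurable).aemeasurable, (hm.comp (hmp 0).measurable).aemeasurable, ?_⟩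
      have e1 : P.map (fun ω : ℕ → Ω => g (ω j)) = μ.map g := by
        rw [← (hmp j).map_eq, Measure.map_map hm (hmp j).measurable]; rfl
      have e2 : P.map (fun ω : ℕ → Ω => g (ω 0)) = μ.map g := by
        rw [← (hmp 0).map_eq, Measure.map_map hm (hmp 0).measurable]; rfl
      rw [e1, e2]
    have hlaw := strong_law_ae_real (fun (j : ℕ) (ω : ℕ → Ω) => g (ω j)) hint
      (fun j k hjk => hind.indepFun hjk) hid
    have hexp : P[fun ω : ℕ → Ω => g (ω 0)] = μ.real (E i) := by
      have e3 : ∫ ω, g (ω 0) ∂P = ∫ x, g x ∂μ := by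
        rw [← (hmp 0).map_eq]
        rw [integral_map (hmp 0).measurable.aemeasurable (by
          rw [(hmp 0).map_eq]; exact hgi.aestronglyMeasurable)]
      rw [e3, hg, integral_indicator (hE i)]
      simp
    rw [hexp] at hlaw
    exact hlaw
  have hall := ae_all_iff.2 h
  exact hall.exists

end Pool.Agent.H98R3.SN
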