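import Pool.Agent.H98R3.SN.N5
import Pool.Agent.H98R3.SN.N6

/-! Occurrences, interval sums and the block sequences. -/

set_option autoImplicit false

open MeasureTheory Filter Topology Finset
open Pool.Agent.Helper179.KS

namespace Pool.Agent.H98R3.SN

/-! ### occurrences -/

section oc

variable {Λ : Type*} [MeasurableSpace Λ]

/-- indicator of an occurrence of `B` in `x` at position `n` -/
noncomputable def oc (B : List Λ) (x : ℕ → Λ) (n : ℕ) : ℝ :=
  (cylinder B).indicator (fun _ => (1 : ℝ)) (shift^[n] x)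

omit [MeasurableSpace Λ] in
lemma mem_cyl_shift (B : List Λ) (x : ℕ → Λ) (n : ℕ) :
    shift^[n] x ∈ cylinder B ↔ ∀ (i : ℕ) (h : i < B.length), x (n + i) = B[i] := by
  have h1 : ∀ (n : ℕ) (x : ℕ → Λ) (k : ℕ), shift^[n] x k = x (n + k) := by
    intro n
    induction n with
    | zero => intro x k; simp
    | succ n ih =>
      intro x k
      rw [Function.iterate_succ_apply, ih]
      simp only [shift]
      congr 1
      ring
  unfold cylinder
  simp only [Set.mem_ofPred_eq, h1]

omit [MeasurableSpace Λ] in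
lemma oc_nonneg (B : List Λ) (x : ℕ → Λ) (n : ℕ) : 0 ≤ oc B x n := by
  classical
  unfold oc; rw [Set.indicator_apply]; split_ifs <;> norm_num

omit [MeasurableSpace Λ] in
lemma oc_le_one (B : List Λ) (x : ℕ → Λ) (n : ℕ) : oc B x n ≤ 1 := by
  classical
  unfold oc; rw [Set.indicator_apply]; split_ifs <;> norm_num

omit [MeasurableSpace Λ] in
lemma oc_congr (B : List Λ) {x x' : ℕ → Λ} {n m : ℕ} (h : ∀ k < B.length, x (n + k) = x' (m + k)) :
    oc B x n = oc B x' m := by
  classical
  unfold oc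
  rw [Set.indicator_apply, Set.indicator_apply]
  refine if_congr ?_ rfl rfl
  rw [mem_cyl_shift, mem_cyl_shift]
  constructor
  · intro h1 i hi; rw [← h i hi]; exact h1 i hi
  · intro h1 i hi; rw [h i hi]; exact h1 i hi

lemma measurableSet_cylinder [DiscreteMeasurableSpace Λ] (B : List Λ) :
    MeasurableSet (cylinder B : Set (ℕ → Λ)) := by
  have : (cylinder B : Set (ℕ → Λ)) = ⋂ (i : ℕ) (h : i < B.length), {x | x i = B[i]} := by
    ext x; simp [cylinder]
  rw [this]
  refine MeasurableSet.iInter (fun i => MeasurableSet.iInter (fun h => ?_))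
  exact (measurable_pi_apply (X := fun _ : ℕ => Λ) i) (MeasurableSet.of_discrete (s := {B[i]}))

omit [MeasurableSpace Λ] in
lemma oc_single (a : Λ) (x : ℕ → Λ) (n : ℕ) :
    oc [a] x n = r (fw shift (ind {x : ℕ → Λ | x 0 = a}) x n) := by
  classical
  unfold oc fw ind r cylinder
  rw [Set.indicator_apply]
  by_cases h : shift^[n] x 0 = a
  · simp [h]
  · simp [h]

end oc

/-! ### interval sums -/

lemma sum_blocks (g : ℕ → ℝ) (b L d : ℕ) :
    ∑ n ∈ Ico b (b + d * L), g n = ∑ i ∈ range d, ∑ t ∈ range L, g (b + i * L + t) := by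
  induction d with
  | zero => simp
  | succ d ih =>
    rw [sum_range_succ, ← ih, ← sum_Ico_consecutive g (show b ≤ b + d * L by omega)
      (show b + d * L ≤ b + (d + 1) * L by rw [Nat.succ_mul]; omega)]
    congr 1
    rw [sum_Ico_eq_sum_range]
    have : b + (d + 1) * L - (b + d * L) = L := by rw [Nat.succ_mul]; omega
    rw [this]

lemma trivial_bound (g : ℕ → ℝ) (hg : ∀ n, |g n| ≤ 1) {α β : ℕ} (h : α ≤ β) :
    |∑ n ∈ Ico α β, g n| ≤ (β : ℝ) - α := by
  refine (abs_sum_le_sum_abs _ _).trans ?_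
  refine (sum_le_card_nsmul _ _ 1 (fun n _ => hg n)).trans ?_
  rw [Nat.card_Ico, nsmul_eq_mul, mul_one, Nat.cast_sub h]

lemma interval_bound (g : ℕ → ℝ) (hg : ∀ n, |g n| ≤ 1) (L r : ℕ) (hL : 0 < L) (hr : r ≤ L)
    (δ : ℝ) (hδ : 0 ≤ δ) (hs : ∀ s : ℕ, |∑ t ∈ range L, g (r + s * L + t)| ≤ δ * L)
    (α β : ℕ) (h : α ≤ β) : |∑ n ∈ Ico α β, g n| ≤ δ * ((β : ℝ) - α) + 2 * L := by
  have hαβ : (α : ℝ) ≤ β := by exact_mod_cast h
  have hLr : (0 : ℝ) < L := by exact_mod_cast hL
  have hshort : (β : ℝ) - α ≤ L → |∑ n ∈ Ico α β, g n| ≤ δ * ((β : ℝ) - α) + 2 * L := by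
    intro h1
    have h2 := trivial_bound g hg h
    have h3 : 0 ≤ δ * ((β : ℝ) - α) := mul_nonneg hδ (by linarith)
    linarith
  by_cases hβ : β < r
  · apply hshort
    have h1 : (β : ℝ) ≤ r := by exact_mod_cast hβ.le
    have h2 : (r : ℝ) ≤ L := by exact_mod_cast hr
    have h3 : (0 : ℝ) ≤ α := by positivity
    linarith
  push Not at hβ
  set s2 := (β - r) / L with hs2
  set s1 := (α - r + (L - 1)) / L with hs1
  have e1 : s2 * L ≤ β - r := Nat.div_mul_le_self _ _
  have e2 : β - r < s2 * L + L := by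
    have := Nat.lt_div_mul_add (a := β - r) hL
    exact this
  have e3 : s1 * L ≤ α - r + (L - 1) := Nat.div_mul_le_self _ _
  have e4 : α - r + (L - 1) < s1 * L + L := Nat.lt_div_mul_add (a := α - r + (L - 1)) hL
  have hb1 : α ≤ r + s1 * L := by omega
  have hb1' : r + s1 * L ≤ α + L := by
    by_cases hα : α ≤ r
    · have h0 : α - r = 0 := by omega
      have : s1 = 0 := by
        rw [hs1, h0, zero_add]; exact Nat.div_eq_of_lt (by omega)
      rw [this]; omega
    · omega
  have hb2 : r + s2 * L ≤ β := by omega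
  by_cases hcase : s1 ≤ s2
  · have h12 : r + s1 * L ≤ r + s2 * L := by
      have := Nat.mul_le_mul_right L hcase
      omega
    rw [← sum_Ico_consecutive g hb1 (h12.trans hb2), ← sum_Ico_consecutive g h12 hb2]
    have f1 := trivial_bound g hg hb1
    have f3 := trivial_bound g hg hb2
    have f2 : |∑ n ∈ Ico (r + s1 * L) (r + s2 * L), g n| ≤ δ * ((β : ℝ) - α) := by
      have e5 : r + s2 * L = (r + s1 * L) + (s2 - s1) * L := by
        rw [Nat.sub_mul]
        have := Nat.mul_le_mul_right L hcase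
        omega
      rw [e5, sum_blocks]
      refine (abs_sum_le_sum_abs _ _).trans ?_
      have h5 : ∀ i ∈ range (s2 - s1), |∑ t ∈ range L, g (r + s1 * L + i * L + t)| ≤ δ * L := by
        intro i _
        have := hs (s1 + i)
        rw [add_mul, ← add_assoc] at this
        exact this
      refine (sum_le_card_nsmul _ _ _ h5).trans ?_
      rw [card_range, nsmul_eq_mul, Nat.cast_sub hcase]
      have h6 : ((s2 : ℝ) - s1) * L ≤ (β : ℝ) - α := by
        have g1 : (α : ℝ) ≤ r + s1 * L := by exact_mod_cast hb1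
        have g2 : (r : ℝ) + s2 * L ≤ β := by exact_mod_cast hb2
        linarith
      calc ((s2 : ℝ) - s1) * (δ * L) = δ * (((s2 : ℝ) - s1) * L) := by ring
        _ ≤ δ * ((β : ℝ) - α) := mul_le_mul_of_nonneg_left h6 hδ
    have g1 : (r : ℝ) + s1 * L ≤ α + L := by exact_mod_cast hb1'
    have g2 : (β : ℝ) ≤ r + s2 * L + L := by
      have : β ≤ r + s2 * L + L := by omega
      exact_mod_cast this
    push_cast at f1 f3
    set A := ∑ n ∈ Ico α (r + s1 * L), g n
    set B := ∑ n ∈ Ico (r + s1 * L) (r + s2 * L), g n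
    set C := ∑ n ∈ Ico (r + s2 * L) β, g n
    have hABC : |A + (B + C)| ≤ |A| + (|B| + |C|) :=
      (abs_add_le _ _).trans (add_le_add_right (abs_add_le _ _) _)
    linarith
  · apply hshort
    push Not at hcase
    have h7 : (s2 + 1) * L ≤ s1 * L := Nat.mul_le_mul_right L hcase
    rw [Nat.succ_mul] at h7
    have h8 : β ≤ α + L := by omega
    have h9 : (β : ℝ) ≤ α + L := by exact_mod_cast h8
    linarith

/-! ### empirical conditional variance -/

lemma CVc_close {Ω α : Type*} [MeasurableSpace Ω] [Fintype α] [DecidableEq α] [MeasurableSpace α]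
    [MeasurableSingletonClass α] (μ : Measure Ω) (X : Ω → α) (b : Ω → Bool) (ω : ℕ → Ω)
    (h : ∀ (a : α) (t : Bool), Tendsto (fun n : ℕ => (∑ j ∈ range n,
      ((fun x => (X x, b x)) ⁻¹' {(a, t)}).indicator (fun _ => (1 : ℝ)) (ω j)) / n) atTop
      (𝓝 (μ.real ((fun x => (X x, b x)) ⁻¹' {(a, t)})))) {δ : ℝ} (hδ : 0 < δ) :
    ∀ᶠ K : ℕ in atTop, CV μ X b ≤
      CVc (fun j : Fin K => X (ω j)) (fun j : Fin K => b (ω j)) / K + δ := by
  classical
  set F : α → Bool → ℕ → ℝ := fun a t n => (∑ j ∈ range n,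
      ((fun x => (X x, b x)) ⁻¹' {(a, t)}).indicator (fun _ => (1 : ℝ)) (ω j)) / n with hF
  have hcount : ∀ (K : ℕ) (a : α) (t : Bool),
      (cc (fun j : Fin K => X (ω j)) (fun j : Fin K => b (ω j)) a t : ℝ) / K = F a t K := by
    intro K a t
    simp only [hF]
    congr 1
    unfold cc
    rw [Finset.sum_range, Finset.card_filter]
    push_cast
    refine sum_congr rfl (fun j _ => ?_)
    rw [Set.indicator_apply]
    refine if_congr ?_ rfl rfl
    simp
  have hlim : Tendsto (fun K : ℕ => ∑ a, (|μ.real ((fun x => (X x, b x)) ⁻¹' {(a, true)}) -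
      F a true K| + |μ.real ((fun x => (X x, b x)) ⁻¹' {(a, false)}) - F a false K|))
      atTop (𝓝 0) := by
    have h1 : ∀ (a : α) (t : Bool), Tendsto (fun K : ℕ =>
        |μ.real ((fun x => (X x, b x)) ⁻¹' {(a, t)}) - F a t K|) atTop (𝓝 0) := by
      intro a t
      have h2 := (tendsto_const_nhds (x := μ.real ((fun x => (X x, b x)) ⁻¹' {(a, t)}))).sub (h a t)
      rw [sub_self] at h2
      simpa using h2.abs
    have h3 := tendsto_finsetSum (univ : Finset α)
      (fun a _ => (h1 a true).add (h1 a false))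
    simpa using h3
  filter_upwards [hlim.eventually (gt_mem_nhds hδ), eventually_gt_atTop 0] with K hK hK0
  have hKne : (K : ℝ) ≠ 0 := by exact_mod_cast hK0.ne'
  unfold CV CVc
  rw [sum_div]
  refine le_trans (sum_le_sum (fun a _ => ?_)) (le_trans (le_of_eq sum_add_distrib)
    (add_le_add_right hK.le _))
  rw [← phi_div _ _ _ hKne, hcount, hcount]
  have hFnn : ∀ t, 0 ≤ F a t K := by
    intro t
    rw [← hcount]
    positivity
  have := phi_lip (s := μ.real ((fun x => (X x, b x)) ⁻¹' {(a, true)}))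
    (t := μ.real ((fun x => (X x, b x)) ⁻¹' {(a, false)})) (s' := F a true K) (t' := F a false K)
    measureReal_nonneg measureReal_nonneg (hFnn _) (hFnn _)
  linarith

end Pool.Agent.H98R3.SN
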