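import Pool.Agent.H98R3.SN.N7

/-! The stage lemma. -/

set_option autoImplicit false

open MeasureTheory Filter Topology Finset
open Pool.Agent.Helper179.KS

namespace Pool.Agent.H98R3.SN

lemma sum_range_mul' (g : ℕ → ℝ) (K M : ℕ) :
    ∑ t ∈ range (K * M), g t = ∑ i ∈ range K, ∑ n ∈ range M, g (i * M + n) := by
  have h := sum_blocks g 0 M K
  simp only [zero_add] at h
  rw [← h, Nat.Ico_zero_eq_range]

section patched

variable {Λ : Type*} (K M : ℕ) (π : ℕ → Equiv.Perm (Fin K)) (ω : ℕ → ℕ → Λ) (r₀ : ℕ)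

/-- index of the block used at position `i` of the superblock starting at `b` -/
def PP (b i : ℕ) : ℕ := if h : i < K then (π b ⟨i, h⟩ : Fin K).val else 0

/-- the concatenated sequence -/
def xs (n : ℕ) : Λ :=
  if n < r₀ then ω 0 0
  else ω (PP K π (r₀ + ((n - r₀) / (K * M)) * (K * M)) (((n - r₀) % (K * M)) / M))
    (((n - r₀) % (K * M)) % M)

lemma xs_eval (hM : 0 < M) (s i n : ℕ) (hi : i < K) (hn : n < M) :
    xs K M π ω r₀ (r₀ + s * (K * M) + (i * M + n)) = ω (PP K π (r₀ + s * (K * M)) i) n := by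
  have ht : i * M + n < K * M := by
    calc i * M + n < i * M + M := by omega
      _ = (i + 1) * M := by ring
      _ ≤ K * M := Nat.mul_le_mul_right M hi
  have hL : 0 < K * M := by omega
  unfold xs
  rw [if_neg (by omega)]
  have h1 : r₀ + s * (K * M) + (i * M + n) - r₀ = (i * M + n) + s * (K * M) := by omega
  rw [h1, Nat.add_mul_div_right _ _ hL, Nat.add_mul_mod_self_right, Nat.mod_eq_of_lt ht,
    Nat.div_eq_of_lt ht, zero_add]
  have h2 : (i * M + n) / M = i := by
    rw [add_comm, Nat.add_mul_div_right _ _ hM, Nat.div_eq_of_lt hn, zero_add]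
  have h3 : (i * M + n) % M = n := by
    rw [add_comm, Nat.add_mul_mod_self_right, Nat.mod_eq_of_lt hn]
  rw [h2, h3]

lemma sum_PP (F : ℕ → ℝ) (b : ℕ) :
    ∑ i ∈ range K, F (PP K π b i) = ∑ j ∈ range K, F j := by
  rw [Finset.sum_range, Finset.sum_range]
  have h1 : ∀ i : Fin K, F (PP K π b i) = F ((π b i).val) := by
    intro i
    unfold PP
    rw [dif_pos i.isLt]
  rw [Finset.sum_congr rfl (fun i _ => h1 i)]
  exact Equiv.sum_comp (π b) (fun j : Fin K => F j.val)

lemma tail_count (ℓ : ℕ) : ∑ n ∈ range M, (if n + ℓ ≤ M then (0 : ℝ) else 1) ≤ ℓ := by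
  rw [sum_ite, sum_const_zero, zero_add, sum_const, nsmul_eq_mul, mul_one]
  have h : (range M).filter (fun n => ¬ n + ℓ ≤ M) ⊆ Ico (M - ℓ) M := by
    intro n hn
    rw [mem_filter, mem_range] at hn
    rw [mem_Ico]
    omega
  have h2 := card_le_card h
  rw [Nat.card_Ico] at h2
  have h3 : M - (M - ℓ) ≤ ℓ := by omega
  exact_mod_cast h2.trans h3

lemma occ_superblock (hM : 0 < M) (B : List Λ) (φ δ : ℝ)
    (hfreq : ∀ n < M, |∑ j ∈ range K, oc B (ω j) n - K * φ| ≤ δ * K) (s : ℕ) :
    |∑ t ∈ range (K * M), (oc B (xs K M π ω r₀) (r₀ + s * (K * M) + t) - φ)| ≤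
      (δ * M + B.length) * K := by
  set b := r₀ + s * (K * M) with hb
  rw [sum_range_mul']
  have h1 : ∀ i ∈ range K, ∀ n ∈ range M,
      |oc B (xs K M π ω r₀) (b + (i * M + n)) - oc B (ω (PP K π b i)) n| ≤
        if n + B.length ≤ M then (0 : ℝ) else 1 := by
    intro i hi n hn
    rw [mem_range] at hi hn
    split_ifs with h
    · rw [oc_congr B (x' := ω (PP K π b i)) (m := n) (fun k hk => by
        have e : b + (i * M + n) + k = r₀ + s * (K * M) + (i * M + (n + k)) := by rw [hb]; ring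
        rw [e, xs_eval K M π ω r₀ hM s i (n + k) hi (by omega)])]
      simp
    · have e1 := oc_nonneg B (xs K M π ω r₀) (b + (i * M + n))
      have e2 := oc_le_one B (xs K M π ω r₀) (b + (i * M + n))
      have e3 := oc_nonneg B (ω (PP K π b i)) n
      have e4 := oc_le_one B (ω (PP K π b i)) n
      rw [abs_le]; constructor <;> linarith
  have h2 : ∑ i ∈ range K, ∑ n ∈ range M, (oc B (xs K M π ω r₀) (b + (i * M + n)) - φ) =
      ∑ i ∈ range K, ∑ n ∈ range M, (oc B (xs K M π ω r₀) (b + (i * M + n)) -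
        oc B (ω (PP K π b i)) n) + ∑ n ∈ range M, (∑ j ∈ range K, oc B (ω j) n - K * φ) := by
    have h3 : ∑ n ∈ range M, (∑ j ∈ range K, oc B (ω j) n - K * φ) =
        ∑ i ∈ range K, ∑ n ∈ range M, (oc B (ω (PP K π b i)) n - φ) := by
      rw [sum_comm]
      refine sum_congr rfl (fun n _ => ?_)
      rw [sum_sub_distrib, sum_PP K π (fun j => oc B (ω j) n) b]
      simp
    rw [h3, ← sum_add_distrib]
    refine sum_congr rfl (fun i _ => ?_)
    rw [← sum_add_distrib]
    refine sum_congr rfl (fun n _ => by ring)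
  rw [h2]
  have h4 : |∑ i ∈ range K, ∑ n ∈ range M, (oc B (xs K M π ω r₀) (b + (i * M + n)) -
        oc B (ω (PP K π b i)) n)| ≤ B.length * K := by
    refine (abs_sum_le_sum_abs _ _).trans ?_
    have h5 : ∀ i ∈ range K, |∑ n ∈ range M, (oc B (xs K M π ω r₀) (b + (i * M + n)) -
        oc B (ω (PP K π b i)) n)| ≤ B.length := by
      intro i hi
      refine (abs_sum_le_sum_abs _ _).trans ?_
      exact (sum_le_sum (fun n hn => h1 i hi n hn)).trans (tail_count M B.length)
    refine (sum_le_card_nsmul _ _ _ h5).trans ?_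
    rw [card_range, nsmul_eq_mul, mul_comm]
  have h6 : |∑ n ∈ range M, (∑ j ∈ range K, oc B (ω j) n - K * φ)| ≤ δ * M * K := by
    refine (abs_sum_le_sum_abs _ _).trans ?_
    refine (sum_le_card_nsmul _ _ _ (fun n hn => hfreq n (mem_range.1 hn))).trans ?_
    rw [card_range, nsmul_eq_mul]
    apply le_of_eq; ring
  refine (abs_add_le _ _).trans ?_
  linarith

end patched

lemma measurable_fw {Ω : Type*} [MeasurableSpace Ω] {T : Ω → Ω} (hT : Measurable T) {f : Ω → Bool}
    (hf : Measurable f) : Measurable (fw T f) :=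
  measurable_pi_lambda _ (fun n => hf.comp (hT.iterate n))

lemma measurable_suf (M n : ℕ) : Measurable (suf M n) := by
  refine measurable_pi_lambda _ (fun k => ?_)
  unfold suf
  by_cases h : n ≤ k.val
  · simp only [h, if_true]; exact measurable_pi_apply _
  · simp only [h, if_false]; exact measurable_const

/-- the stage lemma -/
theorem stage {Λ : Type*} [Countable Λ] [MeasurableSpace Λ] [DiscreteMeasurableSpace Λ]
    (μ : Measure (ℕ → Λ)) [IsProbabilityMeasure μ] (hμ : MeasurePreserving shift μ μ) (a : Λ)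
    {c : ℝ} (hc : 0 < c)
    (ha : ∀ L : ℕ, c * L ≤ shannonEntropy μ (itinerary shift (ind {x : ℕ → Λ | x 0 = a}) L))
    (ν : Measure (ℕ → Bool)) [IsProbabilityMeasure ν] {c' : ℝ} (hc' : 0 < c') (a' : Bool)
    (ha' : ∀ L : ℕ, c' * L ≤ shannonEntropy ν (itinerary shift (ind {y : ℕ → Bool | y 0 = a'}) L))
    (y : ℕ → Bool) (N : ℕ → ℕ) (hN : StrictMono N)
    (hy : ∀ f : (ℕ → Bool) → ℝ, Continuous f →
      Tendsto (fun j : ℕ => (∑ n ∈ range (N j), f (shift^[n] y)) / (N j : ℝ)) atTop
        (𝓝 (∫ y, f y ∂ν)))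
    (𝓑 : Finset (List Λ)) (δ : ℝ) (hδ : 0 < δ) :
    ∃ L : ℕ, 0 < L ∧ ∀ᶠ j in atTop, ∃ x : ℕ → Λ,
      (∀ B ∈ 𝓑, ∀ α β : ℕ, α ≤ β →
        |∑ n ∈ Ico α β, (oc B x n - μ.real (cylinder B))| ≤ δ * ((β : ℝ) - α) + 2 * L) ∧
      (μ.real (cylinder [a]) * (∫ y, r (y 0) ∂ν) + min (c ^ 2 / 16) 1 * (c' ^ 2 / 8) - δ) * N j ≤
        ∑ n ∈ range (N j), oc [a] x n * r (y n) := by
  classical
  set f : (ℕ → Λ) → Bool := ind {x : ℕ → Λ | x 0 = a} with hf
  have hfm : Measurable f := measurable_ind
    ((measurable_pi_apply (X := fun _ : ℕ => Λ) 0) (MeasurableSet.of_discrete (s := {a})))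
  have hTm : Measurable (shift : (ℕ → Λ) → (ℕ → Λ)) := measurable_shift
  set δ' : ℝ := δ / 5 with hδ'
  have hδ'pos : 0 < δ' := by positivity
  -- the sample
  obtain ⟨ω, hω⟩ := exists_sample μ
    (I := (ℕ × List Λ) ⊕ (Σ M : ℕ, ℕ × (Fin M → Bool) × Bool))
    (fun i => match i with
      | Sum.inl (n, B) => shift^[n] ⁻¹' cylinder B
      | Sum.inr ⟨M, k, q, t⟩ =>
        (fun x => (suf M (k + 1) (fw shift f x), fw shift f x k)) ⁻¹' {(q, t)})
    (by
      rintro (⟨n, B⟩ | ⟨M, k, q, t⟩)
      · exact (hTm.iterate n) (measurableSet_cylinder B)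
      · exact (((measurable_suf M (k + 1)).comp (measurable_fw hTm hfm)).prodMk
          ((measurable_pi_apply k).comp (measurable_fw hTm hfm))) (measurableSet_singleton _))
  have hfreq : ∀ (n : ℕ) (B : List Λ), Tendsto (fun K : ℕ => (∑ j ∈ range K, oc B (ω j) n) / K)
      atTop (𝓝 (μ.real (cylinder B))) := by
    intro n B
    have h1 := hω (Sum.inl (n, B))
    simp only at h1
    have h2 : μ.real (shift^[n] ⁻¹' cylinder B) = μ.real (cylinder B) := by
      unfold Measure.real
      rw [(hμ.iterate n).measure_preimage (measurableSet_cylinder B).nullMeasurableSet]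
    rw [h2] at h1
    exact h1
  have hcv : ∀ (M k : ℕ), ∀ᶠ K : ℕ in atTop,
      CV μ (fun x => suf M (k + 1) (fw shift f x)) (fun x => fw shift f x k) ≤
      CVc (fun j : Fin K => suf M (k + 1) (fw shift f (ω j)))
        (fun j : Fin K => fw shift f (ω j) k) / K + δ' := by
    intro M k
    exact CVc_close μ (fun x => suf M (k + 1) (fw shift f x)) (fun x => fw shift f x k) ω
      (fun q t => hω (Sum.inr ⟨M, k, q, t⟩)) hδ'pos
  -- the block length
  obtain ⟨M, hM1, hMB⟩ : ∃ M : ℕ, 1 ≤ M ∧ ∀ B ∈ 𝓑, (B.length : ℝ) ≤ δ' * M := by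
    obtain ⟨M, hM⟩ := exists_nat_gt ((∑ B ∈ 𝓑, (B.length : ℝ)) / δ')
    refine ⟨M + 1, by omega, fun B hB => ?_⟩
    rw [div_lt_iff₀ hδ'pos] at hM
    have h1 : (B.length : ℝ) ≤ ∑ B ∈ 𝓑, (B.length : ℝ) :=
      single_le_sum (f := fun B : List Λ => (B.length : ℝ)) (fun _ _ => by positivity) hB
    push_cast
    nlinarith
  obtain ⟨K₀, hK₀⟩ := GG_lower ν hc' a' ha' M hM1
  -- the number of blocks
  have hevK : ∀ᶠ K : ℕ in atTop, (∀ B ∈ insert [a] 𝓑, ∀ n ∈ range M,
      |∑ j ∈ range K, oc B (ω j) n - K * μ.real (cylinder B)| ≤ δ' * K) ∧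
      (∀ k ∈ range M, CV μ (fun x => suf M (k + 1) (fw shift f x)) (fun x => fw shift f x k) ≤
      CVc (fun j : Fin K => suf M (k + 1) (fw shift f (ω j)))
        (fun j : Fin K => fw shift f (ω j) k) / K + δ') := by
    refine Eventually.and ?_ ?_
    · refine (eventually_all_finset _).2 (fun B _ => (eventually_all_finset _).2 (fun n _ => ?_))
      have h1 := (hfreq n B)
      have h2 : ∀ᶠ K : ℕ in atTop, |(∑ j ∈ range K, oc B (ω j) n) / K -
          μ.real (cylinder B)| < δ' := by
        have := (Metric.tendsto_nhds.1 h1) δ' hδ'pos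
        simpa [Real.dist_eq] using this
      filter_upwards [h2, eventually_gt_atTop 0] with K hK hK0
      have hK0' : (0 : ℝ) < K := by exact_mod_cast hK0
      have h3 : ∑ j ∈ range K, oc B (ω j) n - K * μ.real (cylinder B) =
          K * ((∑ j ∈ range K, oc B (ω j) n) / K - μ.real (cylinder B)) := by
        field_simp
      rw [h3, abs_mul, abs_of_pos hK0', mul_comm]
      exact mul_le_mul_of_nonneg_right hK.le hK0'.le
    · exact (eventually_all_finset _).2 (fun k _ => hcv M k)
  obtain ⟨K, ⟨hKfreq, hKcv⟩, hKge⟩ := (hevK.and (eventually_ge_atTop (max K₀ 1))).exists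
  have hK1 : 1 ≤ K := (le_max_right _ _).trans hKge
  have hGGlow := hK₀ K ((le_max_left _ _).trans hKge) hK1
  set L := K * M with hLdef
  have hLpos : 0 < L := Nat.mul_pos (by omega) (by omega)
  have hLR : (1 : ℝ) ≤ L := by exact_mod_cast hLpos
  have hLcast : (L : ℝ) = K * M := by rw [hLdef]; push_cast; ring
  have hKR : (0 : ℝ) < K := by exact_mod_cast hK1
  -- the permutations
  have hperm := fun b : ℕ => exists_perm M (fun i : Fin K => blk M (shift^[b] y) i)
    (fun j : Fin K => fw shift f (ω j)) (by omega)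
  choose π hπ using hperm
  refine ⟨L, hLpos, ?_⟩
  set η : ℝ := min (c ^ 2 / 16) 1 with hη
  set κ : ℝ := c' ^ 2 / 8 with hκ
  have hη0 : 0 < η := lt_min (by positivity) one_pos
  have hη1 : η ≤ 1 := min_le_right _ _
  set μa : ℝ := μ.real (cylinder [a]) with hμa
  have hμa0 : 0 ≤ μa := measureReal_nonneg
  have hμa1 : μa ≤ 1 := measureReal_le_one
  set d : ℝ := ∫ y, r (y 0) ∂ν with hd
  -- superblock correlation
  have hyb : ∀ (b i n : ℕ), blk M (shift^[b] y) i n = y (b + (i * M + n)) := by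
    intro b i n
    unfold blk
    rw [shift_iter]
  have hsuper : ∀ (r₀ s : ℕ), μa * ∑ t ∈ range L, r (y (r₀ + s * L + t)) +
      η * GG M K (shift^[r₀ + s * L] y) - 2 * δ' * L ≤
      ∑ t ∈ range L, oc [a] (xs K M π ω r₀) (r₀ + s * L + t) * r (y (r₀ + s * L + t)) := by
    intro r₀ s
    set b := r₀ + s * L with hb
    have h1 := hπ b
    -- right hand side
    have h2 : ∑ i : Fin K, ∑ k ∈ range M, r (blk M (shift^[b] y) i k) *
        r (fw shift f (ω (π b i)) k) =
        ∑ t ∈ range L, oc [a] (xs K M π ω r₀) (b + t) * r (y (b + t)) := by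
      rw [hLdef, sum_range_mul', Finset.sum_range]
      refine sum_congr rfl (fun i _ => sum_congr rfl (fun k hk => ?_))
      rw [mem_range] at hk
      rw [hyb, mul_comm]
      congr 1
      rw [← oc_single]
      refine oc_congr [a] (fun k' hk' => ?_)
      have hk0 : k' = 0 := by simpa using hk'
      subst hk0
      rw [add_zero, add_zero, hb]
      have h3 := xs_eval K M π ω r₀ (by omega) s i k i.isLt hk
      rw [hLdef, h3]
      unfold PP
      rw [dif_pos i.isLt]
    rw [h2] at h1
    refine le_trans ?_ h1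
    -- left hand side
    have hT1 : ∀ k ∈ range M, K * (μa - δ') * (∑ i : Fin K, r (blk M (shift^[b] y) i k)) +
        K * (η - δ') * CVc (fun i : Fin K => pre M k (blk M (shift^[b] y) i))
          (fun i => blk M (shift^[b] y) i k) ≤
        (∑ j : Fin K, r (fw shift f (ω j) k)) * (∑ i : Fin K, r (blk M (shift^[b] y) i k)) +
        CVc (fun j : Fin K => suf M (k + 1) (fw shift f (ω j))) (fun j => fw shift f (ω j) k) *
        CVc (fun i : Fin K => pre M k (blk M (shift^[b] y) i))
          (fun i => blk M (shift^[b] y) i k) := by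
      intro k hk
      have g1 : K * (μa - δ') ≤ ∑ j : Fin K, r (fw shift f (ω j) k) := by
        have g2 := (abs_le.1 (hKfreq [a] (mem_insert_self _ _) k hk)).1
        have g3 : ∑ j ∈ range K, oc [a] (ω j) k = ∑ j : Fin K, r (fw shift f (ω j) k) := by
          rw [Finset.sum_range]
          exact sum_congr rfl (fun j _ => oc_single a (ω j) k)
        rw [g3] at g2
        rw [hμa]
        linarith
      have g4 : K * (η - δ') ≤
          CVc (fun j : Fin K => suf M (k + 1) (fw shift f (ω j))) (fun j => fw shift f (ω j) k) := by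
        have g5 := hKcv k hk
        have g6 := CV_suf_lower hμ hfm hc ha M k (mem_range.1 hk)
        have g7 : η - δ' ≤ CVc (fun j : Fin K => suf M (k + 1) (fw shift f (ω j)))
            (fun j : Fin K => fw shift f (ω j) k) / K := by
          have : η ≤ c ^ 2 / 16 := min_le_left _ _
          linarith
        rw [le_div_iff₀ hKR] at g7
        linarith
      exact add_le_add
        (mul_le_mul_of_nonneg_right g1 (sum_nonneg (fun _ _ => r_nonneg _)))
        (mul_le_mul_of_nonneg_right g4 (CVc_nonneg _ _))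
    have hT2 := mul_le_mul_of_nonneg_left (sum_le_sum hT1) (by positivity : (0 : ℝ) ≤ 1 / (K : ℝ))
    refine le_trans ?_ hT2
    have hT3 : (1 / (K : ℝ)) * ∑ k ∈ range M,
        (K * (μa - δ') * (∑ i : Fin K, r (blk M (shift^[b] y) i k)) +
        K * (η - δ') * CVc (fun i : Fin K => pre M k (blk M (shift^[b] y) i))
          (fun i => blk M (shift^[b] y) i k)) =
        (μa - δ') * ∑ t ∈ range L, r (y (b + t)) + (η - δ') * GG M K (shift^[b] y) := by
      have e1 : ∑ t ∈ range L, r (y (b + t)) =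
          ∑ k ∈ range M, ∑ i : Fin K, r (blk M (shift^[b] y) i k) := by
        rw [hLdef, sum_range_mul', Finset.sum_range, sum_comm]
        refine sum_congr rfl (fun k _ => sum_congr rfl (fun i _ => ?_))
        rw [hyb]
      rw [e1]
      unfold GG
      rw [sum_add_distrib, ← mul_sum, ← mul_sum]
      field_simp
    rw [hT3]
    have e2 : ∑ t ∈ range L, r (y (b + t)) ≤ L := by
      refine (sum_le_card_nsmul _ _ 1 (fun t _ => r_le_one _)).trans ?_
      simp
    have e3 : 0 ≤ ∑ t ∈ range L, r (y (b + t)) := sum_nonneg (fun _ _ => r_nonneg _)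
    have e4 : GG M K (shift^[b] y) ≤ L := by
      rw [hLcast]; refine (GG_le _ _ _).trans (le_of_eq (by ring))
    have e5 := GG_nonneg M K (shift^[b] y)
    have e6 : δ' * ∑ t ∈ range L, r (y (b + t)) ≤ δ' * L := mul_le_mul_of_nonneg_left e2 hδ'pos.le
    have e7 : δ' * GG M K (shift^[b] y) ≤ δ' * L := mul_le_mul_of_nonneg_left e4 hδ'pos.le
    linarith
  -- the large indices
  have hcont1 : Continuous (fun z : ℕ → Bool => r (z 0)) :=
    fd_continuous (L := 1) (fun z z' h => by simp only [h 0 (by omega)])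
  have hJ1 := hy _ hcont1
  have hJ2 := hy _ (fd_continuous (L := K * M) (fun z z' h => GG_congr h) :
    Continuous (GG M K))
  have hNt : Tendsto (fun j => (N j : ℝ)) atTop atTop :=
    tendsto_natCast_atTop_atTop.comp hN.tendsto_atTop
  filter_upwards [hJ1.eventually (lt_mem_nhds (show d - δ' < ∫ y, r (y 0) ∂ν by
      rw [← hd]; linarith)),
    hJ2.eventually (lt_mem_nhds (show (∫ y, GG M K y ∂ν) - δ' < ∫ y, GG M K y ∂ν by linarith)),
    hNt.eventually_ge_atTop (4 * L / δ'), hNt.eventually_gt_atTop 0,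
    hNt.eventually_ge_atTop (2 * L)] with j hj1 hj2 hj3 hj4 hj5
  have hj1' : (d - δ') * N j ≤ ∑ n ∈ range (N j), r (y n) := by
    rw [lt_div_iff₀ hj4] at hj1
    refine hj1.le.trans (le_of_eq ?_)
    refine sum_congr rfl (fun n _ => ?_)
    rw [shift_iter, add_zero]
  have hj2' : ((∫ y, GG M K y ∂ν) - δ') * N j ≤ ∑ n ∈ range (N j), GG M K (shift^[n] y) := by
    rw [lt_div_iff₀ hj4] at hj2
    exact hj2.le
  have hj3' : 4 * (L : ℝ) ≤ δ' * N j := by
    rw [div_le_iff₀ hδ'pos] at hj3
    linarith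
  -- choice of the offset
  set Sn : ℕ := N j / L - 1 with hSn
  have hNL : 2 * L ≤ N j := by exact_mod_cast hj5
  have hdiv : 2 ≤ N j / L := (Nat.le_div_iff_mul_le hLpos).2 (by linarith)
  have hS1 : Sn * L + L ≤ N j := by
    have h1 : (Sn + 1) * L ≤ N j := by
      have : Sn + 1 = N j / L := by omega
      rw [this]; exact Nat.div_mul_le_self _ _
    rw [Nat.succ_mul] at h1
    exact h1
  have hS2 : N j < Sn * L + 2 * L := by
    have h1 : N j < (N j / L) * L + L := Nat.lt_div_mul_add hLpos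
    have : (N j / L) * L = Sn * L + L := by
      have : N j / L = Sn + 1 := by omega
      rw [this, Nat.succ_mul]
    omega
  obtain ⟨r₀, hr₀, hr₀G⟩ : ∃ r₀ ∈ range L, (1 / (L : ℝ)) * ∑ n ∈ range (Sn * L),
      GG M K (shift^[n] y) ≤ ∑ s ∈ range Sn, GG M K (shift^[r₀ + s * L] y) := by
    apply exists_le_of_sum_le (nonempty_range_iff.2 hLpos.ne')
    rw [sum_const, card_range, nsmul_eq_mul]
    have h1 : ∑ i ∈ range L, ∑ s ∈ range Sn, GG M K (shift^[i + s * L] y) =
        ∑ n ∈ range (Sn * L), GG M K (shift^[n] y) := by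
      rw [sum_range_mul' (fun n => GG M K (shift^[n] y)) Sn L, sum_comm]
      refine sum_congr rfl (fun s _ => sum_congr rfl (fun i _ => ?_))
      rw [add_comm i]
    rw [h1]
    have : (L : ℝ) ≠ 0 := by positivity
    field_simp
    exact le_refl _
  rw [mem_range] at hr₀
  refine ⟨xs K M π ω r₀, ?_, ?_⟩
  · -- frequencies
    intro B hB α β hαβ
    refine interval_bound (fun n => oc B (xs K M π ω r₀) n - μ.real (cylinder B)) (fun n => ?_) L r₀
      hLpos hr₀.le δ hδ.le (fun s => ?_) α β hαβ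
    · have e1 := oc_nonneg B (xs K M π ω r₀) n
      have e2 := oc_le_one B (xs K M π ω r₀) n
      have e3 : 0 ≤ μ.real (cylinder B : Set (ℕ → Λ)) := measureReal_nonneg
      have e4 : μ.real (cylinder B : Set (ℕ → Λ)) ≤ 1 := measureReal_le_one
      rw [abs_le]; constructor <;> linarith
    · have h1 := occ_superblock K M π ω r₀ (by omega) B (μ.real (cylinder B)) δ'
        (fun n hn => hKfreq B (mem_insert_of_mem hB) n (mem_range.2 hn)) s
      refine h1.trans ?_
      have h2 := hMB B hB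
      rw [hLcast]
      have h3 : (δ' * M + B.length) * (K : ℝ) ≤ (δ' * M + δ' * M) * K := by
        apply mul_le_mul_of_nonneg_right _ hKR.le
        linarith
      have h4 : (δ' * M + δ' * M) * (K : ℝ) = 2 * δ' * (K * M) := by ring
      have h5 : 2 * δ' * ((K : ℝ) * M) ≤ δ * (K * M) := by
        apply mul_le_mul_of_nonneg_right _ (by positivity)
        rw [hδ']; linarith
      linarith
  · -- correlation
    have hg0 : ∀ n, 0 ≤ oc [a] (xs K M π ω r₀) n * r (y n) := fun n =>
      mul_nonneg (oc_nonneg _ _ _) (r_nonneg _)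
    have hsub : Ico r₀ (r₀ + Sn * L) ⊆ range (N j) := by
      intro n hn
      rw [mem_Ico] at hn
      rw [mem_range]
      omega
    have h1 : ∑ n ∈ Ico r₀ (r₀ + Sn * L), oc [a] (xs K M π ω r₀) n * r (y n) ≤
        ∑ n ∈ range (N j), oc [a] (xs K M π ω r₀) n * r (y n) :=
      sum_le_sum_of_subset_of_nonneg hsub (fun n _ _ => hg0 n)
    refine le_trans ?_ h1
    rw [sum_blocks]
    refine le_trans ?_ (sum_le_sum (fun s _ => hsuper r₀ s))
    rw [sum_sub_distrib, sum_add_distrib, ← mul_sum, ← mul_sum, ← sum_blocks (fun n => r (y n)),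
      sum_const, card_range, nsmul_eq_mul]
    -- the density part
    have h2 : ∑ n ∈ range (N j), r (y n) - 2 * L ≤ ∑ n ∈ Ico r₀ (r₀ + Sn * L), r (y n) := by
      have h3 := sum_sdiff (f := fun n => r (y n)) hsub
      have h4 : ∑ n ∈ range (N j) \ Ico r₀ (r₀ + Sn * L), r (y n) ≤ 2 * L := by
        refine (sum_le_card_nsmul _ _ 1 (fun n _ => r_le_one _)).trans ?_
        rw [nsmul_eq_mul, mul_one, card_sdiff_of_subset hsub, card_range, Nat.card_Ico]
        have : N j - (r₀ + Sn * L - r₀) ≤ 2 * L := by omega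
        exact_mod_cast this
      linarith
    -- the variance part
    have h5 : (1 / (L : ℝ)) * ∑ n ∈ range (N j), GG M K (shift^[n] y) - 2 * L ≤
        ∑ s ∈ range Sn, GG M K (shift^[r₀ + s * L] y) := by
      refine le_trans ?_ hr₀G
      have hsub2 : range (Sn * L) ⊆ range (N j) := by
        intro n hn
        rw [mem_range] at *
        omega
      have h6 := sum_sdiff (f := fun n => GG M K (shift^[n] y)) hsub2
      have h7 : ∑ n ∈ range (N j) \ range (Sn * L), GG M K (shift^[n] y) ≤ 2 * L * L := by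
        have h8 : ∀ n ∈ range (N j) \ range (Sn * L), GG M K (shift^[n] y) ≤ L := by
          intro n _
          rw [hLcast]; exact (GG_le _ _ _).trans (le_of_eq (by ring))
        refine (sum_le_card_nsmul _ _ _ h8).trans ?_
        rw [nsmul_eq_mul, card_sdiff_of_subset hsub2, card_range, card_range]
        have : N j - Sn * L ≤ 2 * L := by omega
        have : ((N j - Sn * L : ℕ) : ℝ) ≤ 2 * L := by exact_mod_cast this
        exact mul_le_mul_of_nonneg_right this (by positivity)
      have h9 : (1 / (L : ℝ)) * ∑ n ∈ range (N j) \ range (Sn * L), GG M K (shift^[n] y) ≤ 2 * L := by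
        have := mul_le_mul_of_nonneg_left h7 (by positivity : (0 : ℝ) ≤ 1 / (L : ℝ))
        refine this.trans (le_of_eq ?_)
        field_simp
      rw [← h6, mul_add]
      linarith
    have h10 : (κ - δ') * N j ≤ (1 / (L : ℝ)) * ∑ n ∈ range (N j), GG M K (shift^[n] y) := by
      have h11 : (κ * L - δ') * N j ≤ ∑ n ∈ range (N j), GG M K (shift^[n] y) := by
        refine le_trans ?_ hj2'
        apply mul_le_mul_of_nonneg_right _ hj4.le
        rw [hLcast]
        linarith
      have h12 := mul_le_mul_of_nonneg_left h11 (by positivity : (0 : ℝ) ≤ 1 / (L : ℝ))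
      refine le_trans ?_ h12
      have h13 : (1 / (L : ℝ)) * ((κ * L - δ') * N j) = (κ - δ' / L) * N j := by
        field_simp
      rw [h13]
      apply mul_le_mul_of_nonneg_right _ hj4.le
      have : δ' / L ≤ δ' := div_le_self hδ'pos.le hLR
      linarith
    have hSL : (Sn : ℝ) * L ≤ N j := by
      have : Sn * L ≤ N j := by omega
      exact_mod_cast this
    have k1 : μa * ((d - δ') * N j - 2 * L) ≤ μa * ∑ n ∈ Ico r₀ (r₀ + Sn * L), r (y n) :=
      mul_le_mul_of_nonneg_left (by linarith) hμa0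
    have k2 : η * ((κ - δ') * N j - 2 * L) ≤ η * ∑ s ∈ range Sn, GG M K (shift^[r₀ + s * L] y) :=
      mul_le_mul_of_nonneg_left (by linarith) hη0.le
    have k3 : (Sn : ℝ) * (2 * δ' * L) ≤ 2 * δ' * N j := by
      calc (Sn : ℝ) * (2 * δ' * L) = 2 * δ' * (Sn * L) := by ring
        _ ≤ 2 * δ' * N j := mul_le_mul_of_nonneg_left hSL (by positivity)
    have k4 : μa * (δ' * N j) ≤ δ' * N j := mul_le_of_le_one_left (by positivity) hμa1
    have k5 : μa * (2 * L) ≤ 2 * L := mul_le_of_le_one_left (by positivity) hμa1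
    have k6 : η * (δ' * N j) ≤ δ' * N j := mul_le_of_le_one_left (by positivity) hη1
    have k7 : η * (2 * L) ≤ 2 * L := mul_le_of_le_one_left (by positivity) hη1
    have k8 : δ = 5 * δ' := by rw [hδ']; ring
    rw [k8]
    nlinarith

end Pool.Agent.H98R3.SN
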