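import Pool.Agent.H98R3.SN.N8

/-! Gluing of the stages and the final theorem. -/

set_option autoImplicit false

open MeasureTheory Filter Topology Finset
open Pool.Agent.Helper179.KS

namespace Pool.Agent.H98R3.SN

lemma exists_stage_index (τ : ℕ → ℕ) (h0 : τ 0 = 0) (hτ : StrictMono τ) (n : ℕ) :
    ∃ t, τ t ≤ n ∧ n < τ (t + 1) := by
  classical
  have hex : ∃ t, n < τ (t + 1) := ⟨n, lt_of_lt_of_le (Nat.lt_succ_self n) (hτ.le_apply)⟩
  refine ⟨Nat.find hex, ?_, Nat.find_spec hex⟩
  rcases Nat.eq_zero_or_pos (Nat.find hex) with h | h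
  · rw [h, h0]; exact Nat.zero_le _
  · have := Nat.find_min hex (m := Nat.find hex - 1) (by omega)
    push Not at this
    rwa [show Nat.find hex - 1 + 1 = Nat.find hex by omega] at this

lemma stage_index_unique {τ : ℕ → ℕ} (hτ : StrictMono τ) {n s t : ℕ} (hs : τ s ≤ n)
    (hs' : n < τ (s + 1)) (ht : τ t ≤ n) (ht' : n < τ (t + 1)) : s = t := by
  rcases lt_trichotomy s t with h | h | h
  · have := hτ.monotone (show s + 1 ≤ t by omega)
    omega
  · exact h
  · have := hτ.monotone (show t + 1 ≤ s by omega)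
    omega

lemma diff_count (a b N ℓ : ℕ) (hN : N ≤ b) :
    ∑ n ∈ Ico a N, (if n + ℓ ≤ b then (0 : ℝ) else 1) ≤ ℓ := by
  rw [sum_ite, sum_const_zero, zero_add, sum_const, nsmul_eq_mul, mul_one]
  have h : (Ico a N).filter (fun n => ¬ n + ℓ ≤ b) ⊆ Ico (b - ℓ) b := by
    intro n hn
    rw [mem_filter, mem_Ico] at hn
    rw [mem_Ico]
    omega
  have h2 := card_le_card h
  rw [Nat.card_Ico] at h2
  have h3 : b - (b - ℓ) ≤ ℓ := by omega
  exact_mod_cast h2.trans h3

/-- abstract gluing of the stages -/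
theorem glue {Λ : Type*} [Countable Λ] (φ : List Λ → ℝ) (hφ0 : ∀ B, 0 ≤ φ B) (hφ1 : ∀ B, φ B ≤ 1)
    (N : ℕ → ℕ) (hN : StrictMono N) (w : ℕ → ℝ) (hw0 : ∀ n, 0 ≤ w n) (hw1 : ∀ n, w n ≤ 1)
    (a : Λ) (θ : ℝ)
    (h : ∀ (𝓑 : Finset (List Λ)) (δ : ℝ), 0 < δ → ∃ L : ℕ, 0 < L ∧ ∀ᶠ j in atTop, ∃ x : ℕ → Λ,
      (∀ B ∈ 𝓑, ∀ α β : ℕ, α ≤ β →
        |∑ n ∈ Ico α β, (oc B x n - φ B)| ≤ δ * ((β : ℝ) - α) + 2 * L) ∧
      (θ - δ) * N j ≤ ∑ n ∈ range (N j), oc [a] x n * w n) :
    ∃ x : ℕ → Λ, (∀ B, Tendsto (fun M : ℕ => (∑ n ∈ range M, oc B x n) / (M : ℝ)) atTop (𝓝 (φ B))) ∧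
      ∃ f : ℕ → ℕ, Tendsto f atTop atTop ∧ ∀ t : ℕ,
        (θ - 2 / ((t : ℝ) + 1)) * N (f t) ≤ ∑ n ∈ range (N (f t)), oc [a] x n * w n := by
  classical
  obtain ⟨e, he⟩ := exists_surjective_nat (List Λ)
  choose L hL hQ using fun t : ℕ => h ((range (t + 1)).image e) (1 / ((t : ℝ) + 1)) (by positivity)
  have hstep : ∀ t T : ℕ, ∃ j : ℕ, (∃ x : ℕ → Λ,
      (∀ B ∈ (range (t + 1)).image e, ∀ α β : ℕ, α ≤ β →
        |∑ n ∈ Ico α β, (oc B x n - φ B)| ≤ 1 / ((t : ℝ) + 1) * ((β : ℝ) - α) + 2 * L t) ∧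
      (θ - 1 / ((t : ℝ) + 1)) * N j ≤ ∑ n ∈ range (N j), oc [a] x n * w n) ∧
      (t + 1) * (T + 2 * L t + 2 * L (t + 1) + t + 1) ≤ N j := by
    intro t T
    have h1 := hN.tendsto_atTop.eventually_ge_atTop ((t + 1) * (T + 2 * L t + 2 * L (t + 1) + t + 1))
    obtain ⟨j, hj1, hj2⟩ := ((hQ t).and h1).exists
    exact ⟨j, hj1, hj2⟩
  choose J hJx hJN using hstep
  -- the times
  let τ : ℕ → ℕ := fun t => Nat.rec 0 (fun t T => N (J t T)) t
  have hτ0 : τ 0 = 0 := rfl
  have hτs : ∀ t, τ (t + 1) = N (J t (τ t)) := fun t => rfl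
  have hτbig : ∀ t, (t + 1) * (τ t + 2 * L t + 2 * L (t + 1) + t + 1) ≤ τ (t + 1) := fun t => by
    rw [hτs]; exact hJN t (τ t)
  have hτ : StrictMono τ := by
    apply strictMono_nat_of_lt_succ
    intro t
    have h1 := hτbig t
    have h2 : τ t + 2 * L t + 2 * L (t + 1) + t + 1 ≤
        (t + 1) * (τ t + 2 * L t + 2 * L (t + 1) + t + 1) := Nat.le_mul_of_pos_left _ (by omega)
    omega
  clear_value τ
  choose x' hx'A hx'B using fun t => hJx t (τ t)
  choose st hst1 hst2 using exists_stage_index τ hτ0 hτ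
  set X : ℕ → Λ := fun n => x' (st n) n with hX
  have hXeq : ∀ t n, τ t ≤ n → n < τ (t + 1) → X n = x' t n := by
    intro t n h1 h2
    have := stage_index_unique hτ (hst1 n) (hst2 n) h1 h2
    simp only [hX, this]
  have hτR : ∀ t : ℕ, ((t : ℝ) + 1) * (τ t + 2 * L t + 2 * L (t + 1) + t + 1) ≤ τ (t + 1) := by
    intro t
    exact_mod_cast hτbig t
  refine ⟨X, ?_, fun t => J t (τ t), ?_, ?_⟩
  · -- frequencies
    intro B
    obtain ⟨m, hm⟩ := he B
    set ℓ := B.length with hℓ
    set g : ℕ → ℝ := fun n => oc B X n - φ B with hg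
    have hg1 : ∀ n, |g n| ≤ 1 := by
      intro n
      have e1 := oc_nonneg B X n
      have e2 := oc_le_one B X n
      have e3 := hφ0 B
      have e4 := hφ1 B
      simp only [hg]
      rw [abs_le]; constructor <;> linarith
    have hE0 : ∀ M : ℕ, |∑ n ∈ range M, g n| ≤ M := by
      intro M
      have := trivial_bound g hg1 (Nat.zero_le M)
      rw [Nat.Ico_zero_eq_range] at this
      simpa using this
    -- inside a stage
    have hin : ∀ t, m ≤ t → ∀ M, τ t ≤ M → M ≤ τ (t + 1) →
        |∑ n ∈ Ico (τ t) M, g n| ≤ 1 / ((t : ℝ) + 1) * ((M : ℝ) - τ t) + 2 * L t + ℓ := by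
      intro t ht M hM1 hM2
      have h1 := hx'A t B (mem_image.2 ⟨m, mem_range.2 (by omega), hm⟩) (τ t) M hM1
      have h2 : |∑ n ∈ Ico (τ t) M, g n - ∑ n ∈ Ico (τ t) M, (oc B (x' t) n - φ B)| ≤ ℓ := by
        rw [← sum_sub_distrib]
        refine (abs_sum_le_sum_abs _ _).trans ?_
        refine le_trans (sum_le_sum (fun n hn => ?_)) (diff_count (τ t) (τ (t + 1)) M ℓ hM2)
        rw [mem_Ico] at hn
        split_ifs with hc
        · have : oc B X n = oc B (x' t) n := by
            apply oc_congr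
            intro k hk
            exact hXeq t (n + k) (by omega) (by omega)
          simp only [hg, this]
          simp
        · have e1 := oc_nonneg B X n
          have e2 := oc_le_one B X n
          have e3 := oc_nonneg B (x' t) n
          have e4 := oc_le_one B (x' t) n
          simp only [hg]
          rw [abs_le]; constructor <;> linarith
      have h3 := abs_sub_abs_le_abs_sub (∑ n ∈ Ico (τ t) M, g n)
        (∑ n ∈ Ico (τ t) M, (oc B (x' t) n - φ B))
      linarith
    -- at the ends of the stages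
    have hend : ∀ t, m ≤ t → ℓ ≤ t + 1 →
        |∑ n ∈ range (τ (t + 1)), g n| ≤ 2 / ((t : ℝ) + 1) * τ (t + 1) := by
      intro t ht hℓt
      have h1 := hin t ht (τ (t + 1)) (hτ.monotone (by omega)) le_rfl
      have h2 : ∑ n ∈ range (τ (t + 1)), g n = ∑ n ∈ range (τ t), g n +
          ∑ n ∈ Ico (τ t) (τ (t + 1)), g n :=
        (sum_range_add_sum_Ico g (hτ.monotone (Nat.le_succ t))).symm
      have h3 := hE0 (τ t)
      have h4 : |∑ n ∈ range (τ (t + 1)), g n| ≤ τ t + (1 / ((t : ℝ) + 1) *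
          ((τ (t + 1) : ℝ) - τ t) + 2 * L t + ℓ) := by
        rw [h2]
        exact (abs_add_le _ _).trans (add_le_add h3 h1)
      have ht1 : (0 : ℝ) < (t : ℝ) + 1 := by positivity
      have h5 := hτR t
      have h6 : (ℓ : ℝ) ≤ t + 1 := by exact_mod_cast hℓt
      have h7 : (τ t : ℝ) + 2 * L t + ℓ ≤ 1 / ((t : ℝ) + 1) * τ (t + 1) := by
        rw [one_div, ← div_eq_inv_mul, le_div_iff₀ ht1]
        refine le_trans ?_ h5
        rw [mul_comm]
        apply mul_le_mul_of_nonneg_left _ ht1.le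
        have : (0 : ℝ) ≤ L (t + 1) := by positivity
        linarith
      have h8 : 0 ≤ 1 / ((t : ℝ) + 1) * τ t := by positivity
      have h9 : 2 / ((t : ℝ) + 1) * τ (t + 1) = 1 / ((t : ℝ) + 1) * τ (t + 1) +
        1 / ((t : ℝ) + 1) * τ (t + 1) := by ring
      rw [h9]
      have h10 : 1 / ((t : ℝ) + 1) * ((τ (t + 1) : ℝ) - τ t) =
        1 / ((t : ℝ) + 1) * τ (t + 1) - 1 / ((t : ℝ) + 1) * τ t := by ring
      rw [h10] at h4
      linarith
    have hall : ∀ t, m ≤ t → ℓ ≤ t + 1 → ∀ M, τ (t + 1) ≤ M → M ≤ τ (t + 2) →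
        |∑ n ∈ range M, g n| ≤ 4 / ((t : ℝ) + 1) * M := by
      intro t ht hℓt M hM1 hM2
      have h1 := hin (t + 1) (by omega) M hM1 hM2
      have h2 := hend t ht hℓt
      have h3 : ∑ n ∈ range M, g n = ∑ n ∈ range (τ (t + 1)), g n +
          ∑ n ∈ Ico (τ (t + 1)) M, g n :=
        (sum_range_add_sum_Ico g hM1).symm
      have h4 : |∑ n ∈ range M, g n| ≤ 2 / ((t : ℝ) + 1) * τ (t + 1) +
          (1 / (((t + 1 : ℕ) : ℝ) + 1) * ((M : ℝ) - τ (t + 1)) + 2 * L (t + 1) + ℓ) := by
        rw [h3]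
        exact (abs_add_le _ _).trans (add_le_add h2 h1)
      have ht1 : (0 : ℝ) < (t : ℝ) + 1 := by positivity
      have h5 := hτR t
      have h6 : (ℓ : ℝ) ≤ t + 1 := by exact_mod_cast hℓt
      have hMR : (τ (t + 1) : ℝ) ≤ M := by exact_mod_cast hM1
      have h7 : 2 * (L (t + 1) : ℝ) + ℓ ≤ 1 / ((t : ℝ) + 1) * M := by
        rw [one_div, ← div_eq_inv_mul, le_div_iff₀ ht1]
        refine le_trans ?_ (h5.trans hMR)
        rw [mul_comm]
        apply mul_le_mul_of_nonneg_left _ ht1.le
        have : (0 : ℝ) ≤ L t := by positivity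
        have : (0 : ℝ) ≤ τ t := by positivity
        linarith
      have h8 : 2 / ((t : ℝ) + 1) * τ (t + 1) ≤ 2 / ((t : ℝ) + 1) * M :=
        mul_le_mul_of_nonneg_left hMR (by positivity)
      have h9 : 1 / (((t + 1 : ℕ) : ℝ) + 1) * ((M : ℝ) - τ (t + 1)) ≤ 1 / ((t : ℝ) + 1) * M := by
        apply mul_le_mul
        · apply one_div_le_one_div_of_le ht1
          push_cast; linarith
        · have : (0 : ℝ) ≤ τ (t + 1) := by positivity
          linarith
        · linarith
        · positivity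
      have h10 : 4 / ((t : ℝ) + 1) * M = 2 / ((t : ℝ) + 1) * M + 1 / ((t : ℝ) + 1) * M +
        1 / ((t : ℝ) + 1) * M := by ring
      rw [h10]
      linarith
    -- the limit
    rw [Metric.tendsto_atTop]
    intro ε hε
    obtain ⟨t₁, ht₁⟩ := exists_nat_gt (4 / ε)
    set t₂ := max t₁ (max m ℓ) with ht₂
    refine ⟨τ (t₂ + 1), fun M hM => ?_⟩
    have hMpos : 0 < M := by
      have h1 : τ 0 < τ (t₂ + 1) := hτ (by omega)
      omega
    have hMR : (0 : ℝ) < M := by exact_mod_cast hMpos
    have h1 : t₂ + 1 ≤ st M := by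
      by_contra hc
      push Not at hc
      have := hτ.monotone (show st M + 1 ≤ t₂ + 1 by omega)
      have := hst2 M
      omega
    obtain ⟨t, ht⟩ : ∃ t, st M = t + 1 := ⟨st M - 1, by omega⟩
    have h2 := hst1 M
    have h3 := hst2 M
    rw [ht] at h1 h2 h3
    have h4 := hall t (by omega) (by omega) M h2 h3.le
    have h5 : (∑ n ∈ range M, oc B X n) / (M : ℝ) - φ B = (∑ n ∈ range M, g n) / M := by
      simp only [hg]
      rw [sum_sub_distrib, sum_const, card_range, nsmul_eq_mul]
      field_simp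
    rw [Real.dist_eq, h5, abs_div, abs_of_pos hMR, div_lt_iff₀ hMR]
    refine lt_of_le_of_lt h4 ?_
    apply mul_lt_mul_of_pos_right _ hMR
    rw [div_lt_iff₀ (by positivity)]
    rw [div_lt_iff₀ hε] at ht₁
    have h6 : (t₁ : ℝ) ≤ t := by
      have : t₁ ≤ t := by omega
      exact_mod_cast this
    nlinarith
  · -- the chosen indices tend to infinity
    rw [tendsto_atTop]
    intro b
    have h1 : Tendsto (fun t => τ (t + 1)) atTop atTop :=
      hτ.tendsto_atTop.comp (tendsto_add_atTop_nat 1)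
    filter_upwards [h1.eventually_ge_atTop (N b)] with t ht
    rw [hτs] at ht
    exact hN.le_iff_le.1 ht
  · intro t
    have h1 := hx'B t
    rw [← hτs] at h1 ⊢
    have h2 : ∑ n ∈ range (τ (t + 1)), oc [a] (x' t) n * w n ≤
        ∑ n ∈ range (τ (t + 1)), oc [a] X n * w n + τ t := by
      rw [← sum_range_add_sum_Ico _ (hτ.monotone (Nat.le_succ t)),
        ← sum_range_add_sum_Ico (fun n => oc [a] X n * w n) (hτ.monotone (Nat.le_succ t))]
      have h3 : ∑ n ∈ Ico (τ t) (τ (t + 1)), oc [a] (x' t) n * w n =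
          ∑ n ∈ Ico (τ t) (τ (t + 1)), oc [a] X n * w n := by
        refine sum_congr rfl (fun n hn => ?_)
        rw [mem_Ico] at hn
        congr 1
        apply oc_congr
        intro k hk
        have hk0 : k = 0 := by simpa using hk
        subst hk0
        exact (hXeq t n hn.1 hn.2).symm
      rw [h3]
      have h4 : ∑ n ∈ range (τ t), oc [a] (x' t) n * w n ≤ τ t := by
        refine (sum_le_card_nsmul _ _ 1 (fun n _ => ?_)).trans ?_
        · exact mul_le_one₀ (oc_le_one _ _ _) (hw0 n) (hw1 n)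
        · simp
      have h5 : 0 ≤ ∑ n ∈ range (τ t), oc [a] X n * w n :=
        sum_nonneg (fun n _ => mul_nonneg (oc_nonneg _ _ _) (hw0 n))
      linarith
    have ht1 : (0 : ℝ) < (t : ℝ) + 1 := by positivity
    have h6 : (τ t : ℝ) ≤ 1 / ((t : ℝ) + 1) * τ (t + 1) := by
      rw [one_div, ← div_eq_inv_mul, le_div_iff₀ ht1]
      refine le_trans ?_ (hτR t)
      rw [mul_comm]
      apply mul_le_mul_of_nonneg_left _ ht1.le
      have e1 : (0 : ℝ) ≤ L t := by positivity
      have e2 : (0 : ℝ) ≤ L (t + 1) := by positivity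
      linarith
    have h7 : (θ - 2 / ((t : ℝ) + 1)) * τ (t + 1) = (θ - 1 / ((t : ℝ) + 1)) * τ (t + 1) -
      1 / ((t : ℝ) + 1) * τ (t + 1) := by ring
    rw [h7]
    linarith

/-- counting the symbol `a` along `S` -/
lemma count_restrict {Λ : Type*} (x : ℕ → Λ) (S : Set ℕ) (a : Λ) (n : ℕ)
    [DecidablePred (fun n => n ∈ S)] [DecidableEq Λ] :
    ∑ k ∈ range n, oc [a] x k * r (decide (k ∈ S)) =
      (((range (Nat.count (fun n => n ∈ S) n)).filter (fun k => restrictTo x S k = a)).card : ℝ) := by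
  induction n with
  | zero => simp
  | succ n ih =>
    rw [sum_range_succ, ih, Nat.count_succ]
    by_cases hn : n ∈ S
    · rw [if_pos hn, range_add_one, filter_insert]
      have h1 : restrictTo x S (Nat.count (fun n => n ∈ S) n) = x n := by
        unfold restrictTo
        congr 1
        convert Nat.nth_count (p := fun n => n ∈ S) hn
      have h2 : oc [a] x n = if x n = a then 1 else 0 := by
        classical
        unfold oc
        rw [Set.indicator_apply]
        refine if_congr ?_ rfl rfl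
        rw [mem_cyl_shift]
        simp
      rw [h1, h2]
      by_cases ha : x n = a
      · rw [if_pos ha, if_pos ha, card_insert_of_notMem (by simp)]
        simp [r, hn]
      · rw [if_neg ha, if_neg ha]
        simp
    · rw [if_neg hn]
      simp [r, hn]

/-- derived measures are shift invariant -/
lemma derived_invariant (ν : Measure (ℕ → Bool)) [IsProbabilityMeasure ν] (y : ℕ → Bool)
    (N : ℕ → ℕ) (hN : StrictMono N)
    (hy : ∀ f : (ℕ → Bool) → ℝ, Continuous f →
      Tendsto (fun j : ℕ => (∑ n ∈ range (N j), f (shift^[n] y)) / (N j : ℝ)) atTop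
        (𝓝 (∫ y, f y ∂ν))) : MeasurePreserving shift ν ν := by
  have hsm : Measurable (shift : (ℕ → Bool) → (ℕ → Bool)) := measurable_shift
  have hsc : Continuous (shift : (ℕ → Bool) → (ℕ → Bool)) := by
    unfold shift; fun_prop
  refine ⟨hsm, ?_⟩
  have : IsProbabilityMeasure (ν.map shift) := Measure.isProbabilityMeasure_map hsm.aemeasurable
  refine ext_of_forall_integral_eq_of_IsFiniteMeasure (fun f => ?_)
  rw [integral_map hsm.aemeasurable f.continuous.measurable.aestronglyMeasurable]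
  have h1 := hy (fun z => f (shift z)) (f.continuous.comp hsc)
  have h2 := hy (fun z => f z) f.continuous
  have h3 : Tendsto (fun j : ℕ => (∑ n ∈ range (N j), f (shift (shift^[n] y))) / (N j : ℝ) -
      (∑ n ∈ range (N j), f (shift^[n] y)) / (N j : ℝ)) atTop (𝓝 0) := by
    have h4 : Tendsto (fun j : ℕ => (2 * ‖f‖) / (N j : ℝ)) atTop (𝓝 0) :=
      (tendsto_const_div_atTop_nhds_zero_nat _).comp hN.tendsto_atTop
    apply squeeze_zero_norm _ h4
    intro j
    have h5 : (∑ n ∈ range (N j), f (shift (shift^[n] y))) / (N j : ℝ) -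
      (∑ n ∈ range (N j), f (shift^[n] y)) / (N j : ℝ) =
        (f (shift^[N j] y) - f y) / (N j : ℝ) := by
      rw [← sub_div, ← sum_sub_distrib]
      congr 1
      have h6 := sum_range_sub (fun n => f (shift^[n] y)) (N j)
      simp only [Function.iterate_zero, id] at h6
      rw [← h6]
      refine sum_congr rfl (fun n _ => ?_)
      rw [Function.iterate_succ_apply']
    rw [h5, Real.norm_eq_abs, abs_div, Nat.abs_cast]
    apply div_le_div_of_nonneg_right _ (by positivity)
    have h7 := f.norm_coe_le_norm (shift^[N j] y)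
    have h8 := f.norm_coe_le_norm y
    rw [Real.norm_eq_abs] at h7 h8
    have h9 := abs_sub (f (shift^[N j] y)) (f y)
    linarith
  have h10 := tendsto_nhds_unique (h1.sub h2) h3
  linarith

/-- **Main theorem** -/
theorem main {Λ : Type*} [Countable Λ] [MeasurableSpace Λ] [DiscreteMeasurableSpace Λ]
    (μ : Measure (ℕ → Λ)) [IsProbabilityMeasure μ] (hμ : MeasurePreserving shift μ μ)
    (hpos : 0 < ksEntropy μ shift) (S : Set ℕ) (hS : S.Infinite) (hnd : ¬ Deterministic S) :
    ¬ PreservesSimpleNormality μ S := by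
  classical
  unfold Deterministic at hnd
  push Not at hnd
  obtain ⟨ν, hν, ⟨N, hN, hy⟩, hent⟩ := hnd
  -- derived measures are shift invariant
  have hνinv : MeasurePreserving shift ν ν := derived_invariant ν (indicatorSeq S) N hN hy
  have hνpos : 0 < ksEntropy ν shift := lt_of_le_of_ne (ksEntropy_nonneg ν shift) (Ne.symm hent)
  obtain ⟨a, c, hc, ha⟩ := exists_letter μ hμ hpos
  obtain ⟨a', c', hc', ha'⟩ := exists_letter ν hνinv hνpos
  set y := indicatorSeq S with hydef
  set e : ℝ := min (c ^ 2 / 16) 1 * (c' ^ 2 / 8) with he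
  have hepos : 0 < e := mul_pos (lt_min (by positivity) one_pos) (by positivity)
  set μa : ℝ := μ.real (cylinder [a]) with hμa
  set d : ℝ := ∫ y, r (y 0) ∂ν with hd
  obtain ⟨x, hxfreq, f, hf, hcorr⟩ := glue (fun B => μ.real (cylinder B))
    (fun _ => measureReal_nonneg) (fun _ => measureReal_le_one) N hN (fun n => r (y n))
    (fun n => r_nonneg _) (fun n => r_le_one _) a (μa * d + e)
    (fun 𝓑 δ hδ => stage μ hμ a hc ha ν hc' a' ha' y N hN hy 𝓑 δ hδ)
  intro hpres
  have hgen : IsGeneric μ x := by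
    intro B
    have h1 := hxfreq B
    have h2 : ∀ M : ℕ, |(occ B x M : ℝ) - ∑ n ∈ range M, oc B x n| ≤ B.length + 1 := by
      intro M
      have h3 : (occ B x M : ℝ) = ∑ n ∈ range (M + 1 - B.length), oc B x n := by
        unfold occ
        rw [card_filter]
        push_cast
        refine sum_congr rfl (fun n _ => ?_)
        unfold oc
        rw [Set.indicator_apply]
      rw [h3]
      rcases le_total (M + 1 - B.length) M with hle | hle
      · rw [← sum_range_add_sum_Ico (fun n => oc B x n) hle]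
        have h4 : ∑ n ∈ Ico (M + 1 - B.length) M, oc B x n ≤ B.length := by
          refine (sum_le_card_nsmul _ _ 1 (fun n _ => oc_le_one _ _ _)).trans ?_
          rw [Nat.card_Ico, nsmul_eq_mul, mul_one]
          have : M - (M + 1 - B.length) ≤ B.length := by omega
          exact_mod_cast this
        have h5 : 0 ≤ ∑ n ∈ Ico (M + 1 - B.length) M, oc B x n :=
          sum_nonneg (fun n _ => oc_nonneg _ _ _)
        rw [abs_le]; constructor <;> linarith
      · rw [← sum_range_add_sum_Ico (fun n => oc B x n) hle]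
        have h4 : ∑ n ∈ Ico M (M + 1 - B.length), oc B x n ≤ 1 := by
          refine (sum_le_card_nsmul _ _ 1 (fun n _ => oc_le_one _ _ _)).trans ?_
          rw [Nat.card_Ico, nsmul_eq_mul, mul_one]
          have : M + 1 - B.length - M ≤ 1 := by omega
          exact_mod_cast this
        have h5 : 0 ≤ ∑ n ∈ Ico M (M + 1 - B.length), oc B x n :=
          sum_nonneg (fun n _ => oc_nonneg _ _ _)
        have h6 : (0 : ℝ) ≤ B.length := by positivity
        rw [abs_le]; constructor <;> linarith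
    have h7 : Tendsto (fun M : ℕ => ((occ B x M : ℝ) - ∑ n ∈ range M, oc B x n) / M) atTop (𝓝 0) := by
      have h8 : Tendsto (fun M : ℕ => ((B.length : ℝ) + 1) / M) atTop (𝓝 0) :=
        tendsto_const_div_atTop_nhds_zero_nat _
      apply squeeze_zero_norm _ h8
      intro M
      rw [Real.norm_eq_abs, abs_div, Nat.abs_cast]
      exact div_le_div_of_nonneg_right (h2 M) (by positivity)
    have h9 := h1.add h7
    rw [add_zero] at h9
    refine h9.congr (fun M => ?_)
    ring
  have hnorm := hpres x hgen a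
  -- the number of elements of `S`
  set C : ℕ → ℕ := fun n => Nat.count (fun n => n ∈ S) n with hC
  have hCt : Tendsto C atTop atTop := by
    rw [tendsto_atTop]
    intro b
    filter_upwards [eventually_ge_atTop (Nat.nth (fun n => n ∈ S) b)] with n hn
    have h1 : b ≤ Nat.count (fun n => n ∈ S) n := by
      have h2 := Nat.count_monotone (fun n => n ∈ S) hn
      rwa [Nat.count_nth_of_infinite (p := fun n => n ∈ S) hS b] at h2
    exact h1
  have hA : Tendsto (fun j => (∑ n ∈ range (N j), oc [a] x n * r (y n)) / (N j : ℝ)) atTop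
      (𝓝 (μa * d)) := by
    have h1 : Tendsto (fun j => (((range (C (N j))).filter
        (fun n => restrictTo x S n = a)).card : ℝ) / (C (N j) : ℝ)) atTop (𝓝 μa) := by
      have h2 := hnorm.comp (hCt.comp hN.tendsto_atTop)
      have h3 : μ.real {x : ℕ → Λ | x 0 = a} = μa := by
        rw [hμa]
        congr 1
        ext x
        simp [cylinder]
      rw [h3] at h2
      exact h2
    have h4 : Tendsto (fun j => (C (N j) : ℝ) / N j) atTop (𝓝 d) := by
      have hcont1 : Continuous (fun z : ℕ → Bool => r (z 0)) :=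
        fd_continuous (L := 1) (fun z z' h => by simp only [h 0 (by omega)])
      have h5 := hy _ hcont1
      refine h5.congr (fun j => ?_)
      congr 1
      simp only [hC]
      rw [Nat.count_eq_card_filter_range, card_filter]
      push_cast
      refine sum_congr rfl (fun n _ => ?_)
      rw [shift_iter, add_zero]
      simp only [hydef, r, indicatorSeq, decide_eq_true_eq]
    have h6 := h1.mul h4
    refine Tendsto.congr' ?_ h6
    have h7 : ∀ᶠ j in atTop, 0 < C (N j) := (hCt.comp hN.tendsto_atTop).eventually_gt_atTop 0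
    filter_upwards [h7] with j hj
    have hj' : (C (N j) : ℝ) ≠ 0 := by exact_mod_cast hj.ne'
    have h8 := count_restrict x S a (N j)
    have h9 : ∑ n ∈ range (N j), oc [a] x n * r (y n) =
        (((range (C (N j))).filter (fun k => restrictTo x S k = a)).card : ℝ) := by
      rw [← h8]
      refine sum_congr rfl (fun n _ => ?_)
      congr 2
    rw [h9]
    field_simp
  have hB := hA.comp hf
  -- contradiction
  have hNpos : ∀ᶠ t in atTop, 0 < N (f t) :=
    (hN.tendsto_atTop.comp hf).eventually_gt_atTop 0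
  have hlow : ∀ᶠ t : ℕ in atTop, μa * d + e - 2 / ((t : ℝ) + 1) ≤
      (∑ n ∈ range (N (f t)), oc [a] x n * r (y n)) / (N (f t) : ℝ) := by
    filter_upwards [hNpos] with t ht
    have ht' : (0 : ℝ) < N (f t) := by exact_mod_cast ht
    rw [le_div_iff₀ ht']
    exact hcorr t
  have hlim : Tendsto (fun t : ℕ => μa * d + e - 2 / ((t : ℝ) + 1)) atTop (𝓝 (μa * d + e)) := by
    have h1 : Tendsto (fun t : ℕ => 2 / ((t : ℝ) + 1)) atTop (𝓝 0) := by
      have h2 := tendsto_one_div_add_atTop_nhds_zero_nat (𝕜 := ℝ)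
      have h3 := h2.const_mul 2
      rw [mul_zero] at h3
      refine h3.congr (fun t => ?_)
      ring
    have h4 := (tendsto_const_nhds (x := μa * d + e)).sub h1
    rwa [sub_zero] at h4
  have hfinal := le_of_tendsto_of_tendsto hlim hB hlow
  linarith

end Pool.Agent.H98R3.SN
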